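import Mathlib

/-!
Weighted bound for antichains without large privately pointed sets.
-/

namespace Pool.Agent.Lib.MP_9be8d1_co

open Finset

variable {α : Type*} [DecidableEq α]

/-- Every point of `S` lies in an edge meeting `S` in that point only. -/
def Priv (M : Finset (Finset α)) (S : Finset α) : Prop := ∀ z ∈ S, ∃ e ∈ M, e ∩ S = {z}

def PhiLe (M : Finset (Finset α)) (s : ℕ) : Prop := ∀ S : Finset α, Priv M S → S.card ≤ s

/-- `floor (s (s+2) / 2)` -/
def g (s : ℕ) : ℕ := s * (s + 2) / 2

/-- the weight of a set of size `k`. -/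
noncomputable def c (s k : ℕ) : ℚ := ∏ i ∈ Finset.Icc 3 k, (i : ℚ) / (i + s)

lemma c_two (s : ℕ) : c s 2 = 1 := by simp [c]

lemma c_succ (s k : ℕ) (hk : 2 ≤ k) : c s (k + 1) = c s k * (((k + 1 : ℕ) : ℚ) / (((k + 1 : ℕ) : ℚ) + s)) := by
  unfold c
  rw [Finset.prod_Icc_succ_top (by omega)]

lemma c_pos (s k : ℕ) : 0 < c s k := by
  unfold c
  apply Finset.prod_pos
  intro i hi
  have : 3 ≤ i := (Finset.mem_Icc.mp hi).1
  have h1 : (0 : ℚ) < i := by exact_mod_cast (by omega : 0 < i)
  positivity

lemma c_mul (s k : ℕ) (hk : 3 ≤ k) : (k : ℚ) * c s (k - 1) = ((k : ℚ) + s) * c s k := by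
  obtain ⟨m, rfl⟩ : ∃ m, k = m + 1 := ⟨k - 1, by omega⟩
  rw [c_succ s m (by omega)]
  simp only [Nat.add_sub_cancel]
  have h1 : (0 : ℚ) < ((m + 1 : ℕ) : ℚ) := by exact_mod_cast Nat.succ_pos m
  have h2 : (((m + 1 : ℕ) : ℚ) + s) ≠ 0 := by positivity
  field_simp

lemma c_mono {s t : ℕ} (h : t ≤ s) (k : ℕ) : c s k ≤ c t k := by
  unfold c
  apply Finset.prod_le_prod
  · intro i hi
    positivity
  · intro i hi
    have : 3 ≤ i := (Finset.mem_Icc.mp hi).1
    have h1 : (0 : ℚ) < i := by exact_mod_cast (by omega : 0 < i)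
    have h2 : (t : ℚ) ≤ s := by exact_mod_cast h
    have h3 : (0 : ℚ) ≤ t := by positivity
    apply div_le_div_of_nonneg_left h1.le (by linarith) (by linarith)

lemma c_choose (s r : ℕ) (hr : 2 ≤ r) : c s r * ((s + r).choose r : ℚ) = ((s + 2).choose 2 : ℚ) := by
  induction r, hr using Nat.le_induction with
  | base => rw [c_two, one_mul]
  | succ k hk ih =>
    have h := c_mul s (k + 1) (by omega)
    simp only [Nat.add_sub_cancel] at h
    have h1 : ((s + (k + 1)).choose (k + 1) : ℚ) * ((k + 1 : ℕ) : ℚ) = ((s + k + 1 : ℕ) : ℚ) * ((s + k).choose k : ℚ) := by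
      have := Nat.add_one_mul_choose_eq (s + k) k
      have h3 : (s + k + 1) * (s + k).choose k = (s + (k + 1)).choose (k + 1) * (k + 1) := by
        rw [← add_assoc]; exact this
      exact_mod_cast h3.symm
    have h4 : (0 : ℚ) < ((s + k + 1 : ℕ) : ℚ) := by exact_mod_cast Nat.succ_pos _
    have h5 : (0 : ℚ) < ((k + 1 : ℕ) : ℚ) := by exact_mod_cast Nat.succ_pos _
    rw [← ih]
    have h6 : ((k + 1 : ℕ) : ℚ) + s = ((s + k + 1 : ℕ) : ℚ) := by push_cast; ring
    rw [h6] at h
    -- (k+1) c k = (s+k+1) c (k+1)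
    have h7 : ((k + 1 : ℕ) : ℚ) * (c s (k + 1) * ((s + (k + 1)).choose (k + 1) : ℚ)) =
        ((k + 1 : ℕ) : ℚ) * (c s k * ((s + k).choose k : ℚ)) := by
      calc ((k + 1 : ℕ) : ℚ) * (c s (k + 1) * ((s + (k + 1)).choose (k + 1) : ℚ))
          = c s (k + 1) * (((s + (k + 1)).choose (k + 1) : ℚ) * ((k + 1 : ℕ) : ℚ)) := by ring
        _ = (((s + k + 1 : ℕ) : ℚ) * c s (k + 1)) * ((s + k).choose k : ℚ) := by rw [h1]; ring
        _ = ((k + 1 : ℕ) : ℚ) * (c s k * ((s + k).choose k : ℚ)) := by rw [← h]; ring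
    exact mul_left_cancel₀ h5.ne' h7

/-- arithmetic of `g` -/
lemma g_arith (s d D : ℕ) (hd : d ≤ s) (h : 2 * D + d * d ≤ d * (2 * s + 2)) : g (s - d) + D ≤ g s := by
  obtain ⟨t, rfl⟩ : ∃ t, s = t + d := ⟨s - d, by omega⟩
  simp only [Nat.add_sub_cancel]
  unfold g
  have h1 : (t + d) * (t + d + 2) = t * (t + 2) + (d * (2 * t + 2) + d * d) := by ring
  have h2 : 2 * D ≤ d * (2 * t + 2) + d * d := by nlinarith
  have h3 : t * (t + 2) + 2 * D ≤ (t + d) * (t + d + 2) := by omega
  omega


/-- neighbours of `a` in the graph of the 2-sets of `M`, inside `U`. -/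
def nb (M : Finset (Finset α)) (U : Finset α) (a : α) : Finset α :=
  U.filter (fun y => y ≠ a ∧ ({a, y} : Finset α) ∈ M)

lemma mem_nb {M : Finset (Finset α)} {U : Finset α} {a y : α} :
    y ∈ nb M U a ↔ y ∈ U ∧ y ≠ a ∧ ({a, y} : Finset α) ∈ M := by
  simp [nb]

lemma priv_nb (M : Finset (Finset α)) (U : Finset α) (a : α) : Priv M (nb M U a) := by
  intro z hz
  obtain ⟨hzU, hza, hM⟩ := mem_nb.mp hz
  refine ⟨{a, z}, hM, ?_⟩
  ext x
  simp only [mem_inter, mem_insert, mem_singleton, mem_nb]
  constructor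
  · rintro ⟨rfl | rfl, h1, h2, h3⟩
    · exact absurd rfl h2
    · rfl
  · rintro rfl
    exact ⟨Or.inr rfl, hzU, hza, hM⟩

lemma nb_card_le {M : Finset (Finset α)} {s : ℕ} (hφ : PhiLe M s) (U : Finset α) (a : α) :
    (nb M U a).card ≤ s := hφ _ (priv_nb M U a)

lemma nb_sdiff_card {M : Finset (Finset α)} {s : ℕ} (hφ : PhiLe M s) {U : Finset α} {a y : α}
    (ha : a ∈ U) (hy : y ∈ nb M U a) :
    (nb M U y \ nb M U a).card + (nb M U a).card ≤ s + 2 := by
  obtain ⟨hyU, hya, hM⟩ := mem_nb.mp hy
  have haY : a ∉ nb M U a := by simp [mem_nb]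
  have hay : a ∈ nb M U y \ nb M U a := by
    rw [mem_sdiff]
    refine ⟨mem_nb.mpr ⟨ha, Ne.symm hya, ?_⟩, haY⟩
    rwa [Finset.pair_comm]
  have hdisj : Disjoint ((nb M U y \ nb M U a).erase a) ((nb M U a).erase y) := by
    rw [Finset.disjoint_left]
    intro x hx hx'
    simp only [mem_erase, mem_sdiff] at hx hx'
    exact hx.2.2 hx'.2
  have hP : Priv M (((nb M U y \ nb M U a).erase a) ∪ ((nb M U a).erase y)) := by
    intro z hz
    rw [mem_union] at hz
    rcases hz with hz | hz
    · simp only [mem_erase, mem_sdiff] at hz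
      obtain ⟨hza, hzy, hzn⟩ := hz
      obtain ⟨hzU, hzy', hzM⟩ := mem_nb.mp hzy
      refine ⟨{y, z}, hzM, ?_⟩
      ext x
      simp only [mem_inter, mem_insert, mem_singleton, mem_union, mem_erase, mem_sdiff]
      constructor
      · rintro ⟨rfl | rfl, h⟩
        · rcases h with h | h
          · exact absurd hy h.2.2
          · exact absurd rfl h.1
        · rfl
      · rintro rfl
        exact ⟨Or.inr rfl, Or.inl ⟨hza, hzy, hzn⟩⟩
    · simp only [mem_erase] at hz
      obtain ⟨hzy, hzn⟩ := hz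
      obtain ⟨hzU, hza, hzM⟩ := mem_nb.mp hzn
      refine ⟨{a, z}, hzM, ?_⟩
      ext x
      simp only [mem_inter, mem_insert, mem_singleton, mem_union, mem_erase, mem_sdiff]
      constructor
      · rintro ⟨rfl | rfl, h⟩
        · rcases h with h | h
          · exact absurd rfl h.1
          · exact absurd h.2 haY
        · rfl
      · rintro rfl
        exact ⟨Or.inr rfl, Or.inr ⟨hzy, hzn⟩⟩
  have h := hφ _ hP
  rw [Finset.card_union_of_disjoint hdisj, Finset.card_erase_of_mem hay,
    Finset.card_erase_of_mem hy] at h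
  have h1 : 0 < (nb M U y \ nb M U a).card := Finset.card_pos.mpr ⟨a, hay⟩
  have h2 : 0 < (nb M U a).card := Finset.card_pos.mpr ⟨y, hy⟩
  omega

/-- The local inequality. -/
lemma local_ineq {M : Finset (Finset α)} {s : ℕ} (hφ : PhiLe M s) {U : Finset α} {a : α}
    (hU : ∀ e ∈ M, e ⊆ U) (ha : a ∈ U) :
    2 * (M.filter (fun e => e.card = 2 ∧ ¬ Disjoint e (nb M U a))).card
      + (nb M U a).card * (nb M U a).card ≤ (nb M U a).card * (2 * s + 2) := by
  set Y := nb M U a with hY
  set T := M.filter (fun e => e.card = 2 ∧ ¬ Disjoint e Y) with hT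
  set T1 := T.filter (fun e => (Y.filter (fun y => y ∈ e)).card = 1) with hT1
  -- pair description
  have hpair : ∀ e ∈ T, ∀ y ∈ e, ∃ z, z ≠ y ∧ e = {y, z} := by
    intro e he y hy
    have h2 : e.card = 2 := (mem_filter.mp he).2.1
    obtain ⟨p, q, hpq, rfl⟩ := Finset.card_eq_two.mp h2
    simp only [mem_insert, mem_singleton] at hy
    rcases hy with rfl | rfl
    · exact ⟨q, hpq.symm, rfl⟩
    · exact ⟨p, hpq, Finset.pair_comm _ _⟩
  -- step 1
  have h1 : 2 * T.card ≤ ∑ e ∈ T, (Y.filter (fun y => y ∈ e)).card + T1.card := by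
    have e1 : T1.card = ∑ e ∈ T, (if (Y.filter (fun y => y ∈ e)).card = 1 then 1 else 0) := by
      rw [hT1, Finset.card_filter]
    rw [e1, ← Finset.sum_add_distrib]
    have e2 : 2 * T.card = ∑ e ∈ T, 2 := by
      rw [Finset.sum_const, smul_eq_mul]; ring
    rw [e2]
    apply Finset.sum_le_sum
    intro e he
    have hne : ¬ Disjoint e Y := (mem_filter.mp he).2.2
    rw [Finset.not_disjoint_iff] at hne
    obtain ⟨y, hye, hyY⟩ := hne
    have hpos : 0 < (Y.filter (fun y => y ∈ e)).card :=
      Finset.card_pos.mpr ⟨y, mem_filter.mpr ⟨hyY, hye⟩⟩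
    split_ifs with h <;> omega
  -- step 2
  have h2 : ∑ e ∈ T, (Y.filter (fun y => y ∈ e)).card ≤ Y.card * s := by
    have e1 := Finset.sum_card_bipartiteAbove_eq_sum_card_bipartiteBelow
      (s := Y) (t := T) (fun y e => y ∈ e)
    have e2 : ∑ e ∈ T, (Y.filter (fun y => y ∈ e)).card = ∑ y ∈ Y, (T.filter (fun e => y ∈ e)).card := by
      unfold Finset.bipartiteAbove Finset.bipartiteBelow at e1
      exact e1.symm
    rw [e2]
    calc ∑ y ∈ Y, (T.filter (fun e => y ∈ e)).card ≤ ∑ y ∈ Y, s := by
          apply Finset.sum_le_sum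
          intro y hy
          have hsub : T.filter (fun e => y ∈ e) ⊆ (nb M U y).image (fun z => ({y, z} : Finset α)) := by
            intro e he
            obtain ⟨heT, hye⟩ := mem_filter.mp he
            obtain ⟨z, hz, rfl⟩ := hpair e heT y hye
            have hMe : ({y, z} : Finset α) ∈ M := (mem_filter.mp heT).1
            refine mem_image.mpr ⟨z, mem_nb.mpr ⟨?_, hz, hMe⟩, rfl⟩
            exact hU _ hMe (by simp)
          exact (Finset.card_le_card hsub).trans (Finset.card_image_le.trans (nb_card_le hφ U y))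
      _ = Y.card * s := by rw [Finset.sum_const, smul_eq_mul]
  -- step 3
  have h3 : T1.card + Y.card * Y.card ≤ Y.card * (s + 2) := by
    have hsub : T1 ⊆ Y.biUnion (fun y => (nb M U y \ Y).image (fun z => ({y, z} : Finset α))) := by
      intro e he
      obtain ⟨heT, hc⟩ := mem_filter.mp he
      obtain ⟨y, hy⟩ := Finset.card_eq_one.mp hc
      have hy' : y ∈ Y.filter (fun y => y ∈ e) := by rw [hy]; simp
      obtain ⟨hyY, hye⟩ := mem_filter.mp hy'
      obtain ⟨z, hz, rfl⟩ := hpair e heT y hye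
      have hMe : ({y, z} : Finset α) ∈ M := (mem_filter.mp heT).1
      rw [mem_biUnion]
      refine ⟨y, hyY, mem_image.mpr ⟨z, mem_sdiff.mpr ⟨mem_nb.mpr ⟨hU _ hMe (by simp), hz, hMe⟩, ?_⟩, rfl⟩⟩
      intro hzY
      have : z ∈ Y.filter (fun x => x ∈ ({y, z} : Finset α)) := mem_filter.mpr ⟨hzY, by simp⟩
      rw [hy, mem_singleton] at this
      exact hz this
    have hle : T1.card ≤ ∑ y ∈ Y, (nb M U y \ Y).card := by
      refine (Finset.card_le_card hsub).trans (Finset.card_biUnion_le.trans ?_)
      apply Finset.sum_le_sum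
      intro y _
      exact Finset.card_image_le
    have hsum : ∑ y ∈ Y, (nb M U y \ Y).card + Y.card * Y.card ≤ Y.card * (s + 2) := by
      have e1 : Y.card * Y.card = ∑ y ∈ Y, Y.card := by rw [Finset.sum_const, smul_eq_mul]
      have e2 : Y.card * (s + 2) = ∑ y ∈ Y, (s + 2) := by rw [Finset.sum_const, smul_eq_mul]
      rw [e1, e2, ← Finset.sum_add_distrib]
      apply Finset.sum_le_sum
      intro y hy
      exact nb_sdiff_card hφ ha hy
    omega
  nlinarith [h1, h2, h3]


/-- `e` survives the contraction of `a`. -/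
def Surv (M : Finset (Finset α)) (a : α) (e : Finset α) : Prop :=
  a ∉ e ∧ ∀ e' ∈ M, a ∈ e' → ¬ (e'.erase a ⊆ e)

open scoped Classical in
/-- contraction of `a`, without singletons -/
noncomputable def contr (M : Finset (Finset α)) (a : α) : Finset (Finset α) :=
  (M.filter (fun e => a ∈ e ∧ 3 ≤ e.card)).image (fun e => e.erase a) ∪
    M.filter (fun e => Surv M a e)

lemma mem_contr {M : Finset (Finset α)} {a : α} {f : Finset α} :
    f ∈ contr M a ↔ (∃ e ∈ M, a ∈ e ∧ 3 ≤ e.card ∧ e.erase a = f) ∨ (f ∈ M ∧ Surv M a f) := by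
  unfold contr
  simp only [mem_union, mem_image, mem_filter]
  constructor
  · rintro (⟨e, ⟨h1, h2, h3⟩, h4⟩ | h)
    · exact Or.inl ⟨e, h1, h2, h3, h4⟩
    · exact Or.inr h
  · rintro (⟨e, h1, h2, h3, h4⟩ | h)
    · exact Or.inl ⟨e, ⟨h1, h2, h3⟩, h4⟩
    · exact Or.inr h

lemma contr_subset {M : Finset (Finset α)} {U : Finset α} {a : α} (hU : ∀ e ∈ M, e ⊆ U) :
    ∀ f ∈ contr M a, f ⊆ U.erase a := by
  intro f hf
  rcases mem_contr.mp hf with ⟨e, he, _, _, rfl⟩ | ⟨hf, hs⟩
  · exact Finset.erase_subset_erase a (hU e he)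
  · intro x hx
    refine mem_erase.mpr ⟨?_, hU f hf hx⟩
    rintro rfl
    exact hs.1 hx

lemma contr_card {M : Finset (Finset α)} {a : α} (h2 : ∀ e ∈ M, 2 ≤ e.card) :
    ∀ f ∈ contr M a, 2 ≤ f.card := by
  intro f hf
  rcases mem_contr.mp hf with ⟨e, he, hae, hc, rfl⟩ | ⟨hf, hs⟩
  · rw [Finset.card_erase_of_mem hae]; omega
  · exact h2 f hf

lemma contr_anti {M : Finset (Finset α)} {a : α} (hA : ∀ e ∈ M, ∀ f ∈ M, e ⊆ f → e = f) :
    ∀ e ∈ contr M a, ∀ f ∈ contr M a, e ⊆ f → e = f := by
  intro e he f hf hef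
  rcases mem_contr.mp he with ⟨e1, he1, hae1, _, rfl⟩ | ⟨he, hse⟩
  · rcases mem_contr.mp hf with ⟨f1, hf1, haf1, _, rfl⟩ | ⟨hf, hsf⟩
    · have : e1 ⊆ f1 := by
        intro x hx
        by_cases hxa : x = a
        · rw [hxa]; exact haf1
        · exact (mem_erase.mp (hef (mem_erase.mpr ⟨hxa, hx⟩))).2
      rw [hA e1 he1 f1 hf1 this]
    · exact absurd hef (hsf.2 e1 he1 hae1)
  · rcases mem_contr.mp hf with ⟨f1, hf1, haf1, _, rfl⟩ | ⟨hf, hsf⟩
    · have h1 : e ⊆ f1 := hef.trans (Finset.erase_subset _ _)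
      have h2 := hA e he f1 hf1 h1
      exact absurd (h2 ▸ haf1) hse.1
    · exact hA e he f hf hef

lemma contr_disj_nb {M : Finset (Finset α)} {U : Finset α} {a : α}
    (hA : ∀ e ∈ M, ∀ f ∈ M, e ⊆ f → e = f) :
    ∀ f ∈ contr M a, a ∉ f ∧ ∀ y ∈ nb M U a, y ∉ f := by
  intro f hf
  rcases mem_contr.mp hf with ⟨e, he, hae, hc, rfl⟩ | ⟨hf, hs⟩
  · refine ⟨by simp, ?_⟩
    intro y hy hye
    obtain ⟨_, hya, hM⟩ := mem_nb.mp hy
    have hsub : ({a, y} : Finset α) ⊆ e := by
      intro x hx
      simp only [mem_insert, mem_singleton] at hx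
      rcases hx with rfl | rfl
      · exact hae
      · exact (mem_erase.mp hye).2
    have := hA _ hM e he hsub
    rw [← this] at hc
    have h3 : ({a, y} : Finset α).card ≤ 2 := Finset.card_le_two
    omega
  · refine ⟨hs.1, ?_⟩
    intro y hy hyf
    obtain ⟨_, hya, hM⟩ := mem_nb.mp hy
    apply hs.2 _ hM (by simp)
    intro x hx
    simp only [mem_erase, mem_insert, mem_singleton] at hx
    rcases hx.2 with h | h
    · exact absurd h hx.1
    · rw [h]; exact hyf

lemma contr_phi {M : Finset (Finset α)} {s : ℕ} {U : Finset α} {a : α}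
    (hA : ∀ e ∈ M, ∀ f ∈ M, e ⊆ f → e = f) (hφ : PhiLe M s) :
    PhiLe (contr M a) (s - (nb M U a).card) := by
  intro S hS
  set Y := nb M U a with hY
  have haY : a ∉ Y := by simp [hY, mem_nb]
  have haS : a ∉ S := by
    intro h
    obtain ⟨e, he, hes⟩ := hS a h
    have : a ∈ e ∩ S := by rw [hes]; simp
    exact (contr_disj_nb (U := U) hA e he).1 (mem_inter.mp this).1
  have hdisj : Disjoint S Y := by
    rw [Finset.disjoint_left]
    intro z hz hzY
    obtain ⟨e, he, hes⟩ := hS z hz
    have : z ∈ e ∩ S := by rw [hes]; simp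
    exact (contr_disj_nb (U := U) hA e he).2 z hzY (mem_inter.mp this).1
  have hP : Priv M (S ∪ Y) := by
    intro z hz
    rw [mem_union] at hz
    rcases hz with hz | hz
    · obtain ⟨e, he, hes⟩ := hS z hz
      have hd := contr_disj_nb (U := U) hA e he
      have hkey : e ∩ (S ∪ Y) = {z} := by
        rw [Finset.inter_union_distrib_left, hes]
        have : e ∩ Y = ∅ := by
          rw [← Finset.disjoint_iff_inter_eq_empty, Finset.disjoint_left]
          intro x hx hxY
          exact hd.2 x hxY hx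
        rw [this, Finset.union_empty]
      rcases mem_contr.mp he with ⟨e1, he1, hae1, _, rfl⟩ | ⟨he, _⟩
      · refine ⟨e1, he1, ?_⟩
        rw [← hkey]
        ext x
        simp only [mem_inter, mem_union, mem_erase]
        constructor
        · rintro ⟨h1, h2⟩
          refine ⟨⟨?_, h1⟩, h2⟩
          rintro rfl
          rcases h2 with h | h
          · exact haS h
          · exact haY h
        · rintro ⟨⟨_, h1⟩, h2⟩
          exact ⟨h1, h2⟩
      · exact ⟨e, he, hkey⟩
    · obtain ⟨_, hya, hM⟩ := mem_nb.mp hz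
      refine ⟨{a, z}, hM, ?_⟩
      ext x
      simp only [mem_inter, mem_insert, mem_singleton, mem_union]
      constructor
      · rintro ⟨rfl | rfl, h⟩
        · rcases h with h | h
          · exact absurd h haS
          · exact absurd h haY
        · rfl
      · rintro rfl
        exact ⟨Or.inr rfl, Or.inr hz⟩
  have := hφ _ hP
  rw [Finset.card_union_of_disjoint hdisj] at this
  omega

open scoped Classical in
lemma contr_sum {M : Finset (Finset α)} {a : α} (w : ℕ → ℚ) :
    ∑ f ∈ contr M a, w f.card =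
      ∑ e ∈ M.filter (fun e => a ∈ e ∧ 3 ≤ e.card), w (e.card - 1) +
      ∑ e ∈ M.filter (fun e => Surv M a e), w e.card := by
  unfold contr
  rw [Finset.sum_union]
  · congr 1
    rw [Finset.sum_image]
    · apply Finset.sum_congr rfl
      intro e he
      rw [Finset.card_erase_of_mem (mem_filter.mp he).2.1]
    · intro e he f hf hef
      have he' := (mem_filter.mp he).2.1
      have hf' := (mem_filter.mp hf).2.1
      simp only at hef
      rw [← Finset.insert_erase he', ← Finset.insert_erase hf', hef]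
  · rw [Finset.disjoint_left]
    intro f hf hf'
    obtain ⟨e, he, rfl⟩ := mem_image.mp hf
    obtain ⟨heM, hae, _⟩ := mem_filter.mp he
    have hs := (mem_filter.mp hf').2
    exact hs.2 e heM hae (Finset.Subset.refl _)

/-- The set of non surviving vertices is small. -/
lemma nonsurv_card {M : Finset (Finset α)} {s : ℕ} (hφ : PhiLe M s) (U e : Finset α) :
    ((U \ e).filter (fun a => ∃ e' ∈ M, a ∈ e' ∧ e'.erase a ⊆ e)).card ≤ s := by
  apply hφ
  intro z hz
  simp only [mem_filter, mem_sdiff] at hz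
  obtain ⟨⟨hzU, hze⟩, e', he', hze', hsub⟩ := hz
  refine ⟨e', he', ?_⟩
  ext x
  simp only [mem_inter, mem_filter, mem_sdiff, mem_singleton]
  constructor
  · rintro ⟨hxe', ⟨hxU, hxe⟩, _⟩
    by_contra hne
    exact hxe (hsub (mem_erase.mpr ⟨hne, hxe'⟩))
  · rintro rfl
    exact ⟨hze', ⟨hzU, hze⟩, e', he', hze', hsub⟩


open scoped Classical in
/-- one contraction step -/
lemma step_ineq {M : Finset (Finset α)} {s : ℕ} {U : Finset α} {a : α} (ha : a ∈ U)
    (hU : ∀ e ∈ M, e ⊆ U) (hA : ∀ e ∈ M, ∀ f ∈ M, e ⊆ f → e = f) (h2 : ∀ e ∈ M, 2 ≤ e.card)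
    (hφ : PhiLe M s)
    (ih : ∑ f ∈ contr M a, c (s - (nb M U a).card) f.card ≤ (g (s - (nb M U a).card) : ℚ)) :
    ∑ e ∈ M.filter (fun e => 3 ≤ e.card),
      (if a ∈ e then c s (e.card - 1) else if Surv M a e then c s e.card else 0)
      + ((M.filter (fun e => e.card = 2)).card : ℚ) ≤ (g s : ℚ) := by
  set d := (nb M U a).card with hd
  have hds : d ≤ s := nb_card_le hφ U a
  have h1 : ∑ f ∈ contr M a, c s f.card ≤ (g (s - d) : ℚ) := by
    refine le_trans (Finset.sum_le_sum ?_) ih
    intro f _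
    exact c_mono (Nat.sub_le s d) _
  rw [contr_sum (c s)] at h1
  set D := (M.filter (fun e => e.card = 2 ∧ ¬ Disjoint e (nb M U a))).card with hD
  have hloc : 2 * D + d * d ≤ d * (2 * s + 2) := local_ineq hφ hU ha
  have hg : g (s - d) + D ≤ g s := g_arith s d D hds hloc
  -- split survivors
  have hsplit : ∑ e ∈ M.filter (fun e => Surv M a e), c s e.card =
      ((M.filter (fun e => e.card = 2 ∧ Surv M a e)).card : ℚ) +
      ∑ e ∈ M.filter (fun e => 3 ≤ e.card ∧ Surv M a e), c s e.card := by
    have hun : M.filter (fun e => Surv M a e) =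
        M.filter (fun e => e.card = 2 ∧ Surv M a e) ∪ M.filter (fun e => 3 ≤ e.card ∧ Surv M a e) := by
      ext e
      simp only [mem_filter, mem_union]
      constructor
      · rintro ⟨he, hs⟩
        have := h2 e he
        rcases Nat.eq_or_lt_of_le this with h | h
        · exact Or.inl ⟨he, h.symm, hs⟩
        · exact Or.inr ⟨he, h, hs⟩
      · rintro (⟨he, _, hs⟩ | ⟨he, _, hs⟩) <;> exact ⟨he, hs⟩
    have hdisj : Disjoint (M.filter (fun e => e.card = 2 ∧ Surv M a e))
        (M.filter (fun e => 3 ≤ e.card ∧ Surv M a e)) := by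
      rw [Finset.disjoint_left]
      intro e he he'
      have h3 := (mem_filter.mp he).2.1
      have h4 := (mem_filter.mp he').2.1
      omega
    rw [hun, Finset.sum_union hdisj]
    congr 1
    rw [Finset.card_eq_sum_ones, Nat.cast_sum]
    apply Finset.sum_congr rfl
    intro e he
    rw [(mem_filter.mp he).2.1, c_two, Nat.cast_one]
  -- count of 2-sets
  have hcount : (M.filter (fun e => e.card = 2)).card ≤
      (M.filter (fun e => e.card = 2 ∧ Surv M a e)).card + D := by
    have hsub : M.filter (fun e => e.card = 2) ⊆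
        M.filter (fun e => e.card = 2 ∧ Surv M a e) ∪
        M.filter (fun e => e.card = 2 ∧ ¬ Disjoint e (nb M U a)) := by
      intro e he
      obtain ⟨heM, hec⟩ := mem_filter.mp he
      by_cases hs : Surv M a e
      · exact mem_union_left _ (mem_filter.mpr ⟨heM, hec, hs⟩)
      · apply mem_union_right
        refine mem_filter.mpr ⟨heM, hec, ?_⟩
        rw [Finset.not_disjoint_iff]
        by_cases hae : a ∈ e
        · obtain ⟨p, q, hpq, rfl⟩ := Finset.card_eq_two.mp hec
          simp only [mem_insert, mem_singleton] at hae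
          rcases hae with rfl | rfl
          · exact ⟨q, by simp, mem_nb.mpr ⟨hU _ heM (by simp), hpq.symm, heM⟩⟩
          · refine ⟨p, by simp, mem_nb.mpr ⟨hU _ heM (by simp), hpq, ?_⟩⟩
            rwa [Finset.pair_comm]
        · unfold Surv at hs
          push Not at hs
          obtain ⟨e', he', hae', hsub'⟩ := hs hae
          have hc' : (e'.erase a).card = e'.card - 1 := Finset.card_erase_of_mem hae'
          have h2' := h2 e' he'
          by_cases h3 : e'.card = 2
          · obtain ⟨y, hy⟩ := Finset.card_eq_one.mp (by rw [hc', h3] : (e'.erase a).card = 1)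
            have he'' : e' = {a, y} := by rw [← Finset.insert_erase hae', hy]
            have hye : y ∈ e := hsub' (by rw [hy]; simp)
            have hya : y ≠ a := by
              have : y ∈ e'.erase a := by rw [hy]; simp
              exact (mem_erase.mp this).1
            refine ⟨y, hye, mem_nb.mpr ⟨hU e heM hye, hya, ?_⟩⟩
            rw [← he'']; exact he'
          · exfalso
            have hle := Finset.card_le_card hsub'
            have heq : e'.erase a = e := Finset.eq_of_subset_of_card_le hsub' (by omega)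
            have hsubset : e ⊆ e' := by rw [← heq]; exact Finset.erase_subset _ _
            have := hA e heM e' he' hsubset
            rw [this] at hae
            exact hae hae'
    calc (M.filter (fun e => e.card = 2)).card ≤ _ := Finset.card_le_card hsub
      _ ≤ _ := Finset.card_union_le _ _
  -- rewrite the target sum
  have htarget : ∑ e ∈ M.filter (fun e => 3 ≤ e.card),
      (if a ∈ e then c s (e.card - 1) else if Surv M a e then c s e.card else 0) =
      ∑ e ∈ M.filter (fun e => a ∈ e ∧ 3 ≤ e.card), c s (e.card - 1) +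
      ∑ e ∈ M.filter (fun e => 3 ≤ e.card ∧ Surv M a e), c s e.card := by
    have e1 : ∑ e ∈ M.filter (fun e => a ∈ e ∧ 3 ≤ e.card), c s (e.card - 1) =
        ∑ e ∈ M.filter (fun e => 3 ≤ e.card), (if a ∈ e then c s (e.card - 1) else 0) := by
      rw [← Finset.sum_filter, Finset.filter_filter]
      apply Finset.sum_congr _ (fun _ _ => rfl)
      ext e; simp only [mem_filter]; tauto
    have e2 : ∑ e ∈ M.filter (fun e => 3 ≤ e.card ∧ Surv M a e), c s e.card =
        ∑ e ∈ M.filter (fun e => 3 ≤ e.card), (if Surv M a e then c s e.card else 0) := by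
      rw [← Finset.sum_filter, Finset.filter_filter]
    rw [e1, e2, ← Finset.sum_add_distrib]
    apply Finset.sum_congr rfl
    intro e _
    by_cases hae : a ∈ e
    · have : ¬ Surv M a e := fun h => h.1 hae
      simp [hae, this]
    · simp [hae]
  rw [htarget]
  have hgq : (g (s - d) : ℚ) + D ≤ g s := by exact_mod_cast hg
  have hcq : ((M.filter (fun e => e.card = 2)).card : ℚ) ≤
      ((M.filter (fun e => e.card = 2 ∧ Surv M a e)).card : ℚ) + D := by exact_mod_cast hcount
  rw [hsplit] at h1
  linarith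

/-- Main weighted inequality. -/
theorem weighted_bound (U : Finset α) (s : ℕ) (M : Finset (Finset α))
    (hU : ∀ e ∈ M, e ⊆ U) (hA : ∀ e ∈ M, ∀ f ∈ M, e ⊆ f → e = f) (h2 : ∀ e ∈ M, 2 ≤ e.card)
    (hφ : PhiLe M s) : ∑ e ∈ M, c s e.card ≤ (g s : ℚ) := by
  classical
  induction hn : U.card generalizing U s M with
  | zero =>
    have hM : M = ∅ := by
      rw [Finset.eq_empty_iff_forall_notMem]
      intro e he
      have h1 := Finset.card_le_card (hU e he)
      have h3 := h2 e he
      omega
    rw [hM]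
    simp
  | succ n ih =>
    -- the inequality for each vertex
    have hstep : ∀ a ∈ U, ∑ e ∈ M.filter (fun e => 3 ≤ e.card),
        (if a ∈ e then c s (e.card - 1) else if Surv M a e then c s e.card else 0)
        + ((M.filter (fun e => e.card = 2)).card : ℚ) ≤ (g s : ℚ) := by
      intro a ha
      apply step_ineq ha hU hA h2 hφ
      apply ih (U.erase a) (s - (nb M U a).card) (contr M a) (contr_subset hU) (contr_anti hA)
        (contr_card h2) (contr_phi hA hφ)
      rw [Finset.card_erase_of_mem ha, hn]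
      simp
    have hsum := Finset.sum_le_sum hstep
    rw [Finset.sum_add_distrib, Finset.sum_comm] at hsum
    simp only [Finset.sum_const, nsmul_eq_mul] at hsum
    -- lower bound for each e
    have hlow : ∀ e ∈ M.filter (fun e => 3 ≤ e.card), (U.card : ℚ) * c s e.card ≤
        ∑ a ∈ U, (if a ∈ e then c s (e.card - 1) else if Surv M a e then c s e.card else 0) := by
      intro e he
      obtain ⟨heM, hec⟩ := mem_filter.mp he
      have heU := hU e heM
      have hsplitU : U = e ∪ (U \ e) := (Finset.union_sdiff_of_subset heU).symm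
      have hd : Disjoint e (U \ e) := Finset.disjoint_sdiff
      have h1 : ∑ a ∈ U, (if a ∈ e then c s (e.card - 1) else if Surv M a e then c s e.card else 0) =
          ∑ a ∈ e, (if a ∈ e then c s (e.card - 1) else if Surv M a e then c s e.card else 0) +
          ∑ a ∈ U \ e, (if a ∈ e then c s (e.card - 1) else if Surv M a e then c s e.card else 0) := by
        conv_lhs => rw [hsplitU]
        rw [Finset.sum_union hd]
      have h3 : ∑ a ∈ e, (if a ∈ e then c s (e.card - 1) else if Surv M a e then c s e.card else 0) =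
          (e.card : ℚ) * c s (e.card - 1) := by
        rw [Finset.sum_congr rfl (fun a ha => by rw [if_pos ha])]
        rw [Finset.sum_const, nsmul_eq_mul]
      set X := (U \ e).filter (fun a => ∃ e' ∈ M, a ∈ e' ∧ e'.erase a ⊆ e) with hX
      have hXs : X.card ≤ s := nonsurv_card hφ U e
      have h4 : ∑ a ∈ U \ e, (if a ∈ e then c s (e.card - 1) else if Surv M a e then c s e.card else 0) =
          (((U \ e).filter (fun a => ¬ ∃ e' ∈ M, a ∈ e' ∧ e'.erase a ⊆ e)).card : ℚ) * c s e.card := by
        rw [← nsmul_eq_mul, ← Finset.sum_const, Finset.sum_filter]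
        apply Finset.sum_congr rfl
        intro a ha
        have hae : a ∉ e := (mem_sdiff.mp ha).2
        rw [if_neg hae]
        have hiff : Surv M a e ↔ ¬ ∃ e' ∈ M, a ∈ e' ∧ e'.erase a ⊆ e := by
          unfold Surv
          constructor
          · rintro ⟨_, h⟩ ⟨e', he', h5, h6⟩
            exact h e' he' h5 h6
          · intro h
            exact ⟨hae, fun e' he' h5 h6 => h ⟨e', he', h5, h6⟩⟩
        by_cases hs : Surv M a e
        · rw [if_pos hs, if_pos (hiff.mp hs)]
        · rw [if_neg hs, if_neg (fun h => hs (hiff.mpr h))]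
      have h5 : X.card + ((U \ e).filter (fun a => ¬ ∃ e' ∈ M, a ∈ e' ∧ e'.erase a ⊆ e)).card + e.card = U.card := by
        have h6 := Finset.card_filter_add_card_filter_not (s := U \ e) (fun a => ∃ e' ∈ M, a ∈ e' ∧ e'.erase a ⊆ e)
        have h7 : (U \ e).card + e.card = U.card := by
          rw [Finset.card_sdiff_of_subset heU]
          have := Finset.card_le_card heU
          omega
        rw [hX]
        omega
      rw [h1, h3, h4, c_mul s e.card hec]
      have h8 : (U.card : ℚ) ≤ (e.card : ℚ) + s +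
          (((U \ e).filter (fun a => ¬ ∃ e' ∈ M, a ∈ e' ∧ e'.erase a ⊆ e)).card : ℚ) := by
        have : U.card ≤ e.card + s + ((U \ e).filter (fun a => ¬ ∃ e' ∈ M, a ∈ e' ∧ e'.erase a ⊆ e)).card := by
          omega
        exact_mod_cast this
      have h9 := c_pos s e.card
      nlinarith [mul_le_mul_of_nonneg_right h8 h9.le]
    have hlowsum := Finset.sum_le_sum hlow
    rw [← Finset.mul_sum] at hlowsum
    have htot : ∑ e ∈ M, c s e.card = ∑ e ∈ M.filter (fun e => 3 ≤ e.card), c s e.card +
        ((M.filter (fun e => e.card = 2)).card : ℚ) := by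
      rw [← Finset.sum_filter_add_sum_filter_not M (fun e => 3 ≤ e.card)]
      congr 1
      have hfe : M.filter (fun e => ¬ 3 ≤ e.card) = M.filter (fun e => e.card = 2) := by
        apply Finset.filter_congr
        intro e he
        have := h2 e he
        omega
      rw [hfe, Finset.card_eq_sum_ones, Nat.cast_sum]
      apply Finset.sum_congr rfl
      intro e he
      rw [(mem_filter.mp he).2, c_two, Nat.cast_one]
    rw [htot]
    have hUpos : (0 : ℚ) < U.card := by rw [hn]; exact_mod_cast Nat.succ_pos n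
    have hfin : (U.card : ℚ) * (∑ e ∈ M.filter (fun e => 3 ≤ e.card), c s e.card +
        ((M.filter (fun e => e.card = 2)).card : ℚ)) ≤ U.card * g s := by
      rw [mul_add]
      linarith
    exact le_of_mul_le_mul_left hfin hUpos

/-- The bound for uniform families. -/
theorem uniform_bound {n r s : ℕ} (hr : 2 ≤ r) (E : Finset (Finset (Fin n)))
    (hE : ∀ e ∈ E, e.card = r) (hφ : PhiLe E s) :
    (s + 2).choose 2 * E.card ≤ (s + r).choose r * (s * (s + 2) / 2) := by
  have h := weighted_bound Finset.univ s E (fun e _ => Finset.subset_univ e)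
    (fun e he f hf hef => Finset.eq_of_subset_of_card_le hef (by rw [hE e he, hE f hf]))
    (fun e he => by rw [hE e he]; exact hr) hφ
  rw [Finset.sum_congr rfl (fun e he => by rw [hE e he]), Finset.sum_const, nsmul_eq_mul] at h
  have hc := c_choose s r hr
  have hpos : (0 : ℚ) < ((s + r).choose r : ℚ) := by
    exact_mod_cast Nat.choose_pos (by omega)
  have h1 : ((s + 2).choose 2 : ℚ) * E.card ≤ ((s + r).choose r : ℚ) * (g s : ℚ) := by
    rw [← hc]
    nlinarith [mul_le_mul_of_nonneg_left h hpos.le]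
  unfold g at h1
  exact_mod_cast h1

end Pool.Agent.Lib.MP_9be8d1_co
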