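import Pool.Agent.Lib.MP_9be8d1_co.Core

/-!
Definitions of the problem, lower bounds, Steiner systems, few vertices.
-/

namespace Pool.Agent.Lib.MP_9be8d1_co

open Finset

/-- `D` is a dominating set of the hypergraph with vertex set `Fin n` and edge set `E`: every vertex
outside `D` lies in an edge all of whose other vertices are in `D`. -/
def Dominating {n : ℕ} (E : Finset (Finset (Fin n))) (D : Finset (Fin n)) : Prop :=
  ∀ v : Fin n, v ∉ D → ∃ e ∈ E, v ∈ e ∧ e.erase v ⊆ D

/-- A set is dominated if its complement is dominating. -/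
def Dominated {n : ℕ} (E : Finset (Finset (Fin n))) (S : Finset (Fin n)) : Prop :=
  Dominating E (Finset.univ \ S)

open scoped Classical in
/-- The dominated number: the maximum size of a dominated set. -/
noncomputable def phi {n : ℕ} (E : Finset (Finset (Fin n))) : ℕ :=
  ((Finset.univ : Finset (Finset (Fin n))).filter (fun S => Dominated E S)).sup Finset.card

/-- The set of all sizes of `r`-uniform hypergraphs with dominated number at most `s`;
`f_r(s)` is its maximum. -/
def sizes (r s : ℕ) : Set ℕ :=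
  {m | ∃ n : ℕ, ∃ E : Finset (Finset (Fin n)), (∀ e ∈ E, e.card = r) ∧ phi E ≤ s ∧ E.card = m}

/-- A covering: a family of `k`-subsets of `Fin v` such that every `t`-subset lies in a member. -/
def IsCover (v k t : ℕ) (C : Finset (Finset (Fin v))) : Prop :=
  (∀ c ∈ C, c.card = k) ∧ ∀ T : Finset (Fin v), T.card = t → ∃ c ∈ C, T ⊆ c

/-- The covering number `C(v,k,t)`. -/
noncomputable def coverNum (v k t : ℕ) : ℕ :=
  sInf {m | ∃ C : Finset (Finset (Fin v)), IsCover v k t C ∧ C.card = m}

/-- A Steiner system `S(v,k,t)`: every `t`-subset lies in exactly one member. -/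
def IsSteiner (v k t : ℕ) (C : Finset (Finset (Fin v))) : Prop :=
  (∀ c ∈ C, c.card = k) ∧ ∀ T : Finset (Fin v), T.card = t → ∃! c, c ∈ C ∧ T ⊆ c

lemma dominated_iff {n : ℕ} (E : Finset (Finset (Fin n))) (S : Finset (Fin n)) :
    Dominated E S ↔ Priv E S := by
  unfold Dominated Dominating Priv
  constructor
  · intro h z hz
    obtain ⟨e, he, hze, hsub⟩ := h z (by simp [hz])
    refine ⟨e, he, ?_⟩
    ext x
    simp only [mem_inter, mem_singleton]
    constructor
    · rintro ⟨h1, h2⟩
      by_contra hne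
      have := hsub (mem_erase.mpr ⟨hne, h1⟩)
      simp [h2] at this
    · rintro rfl
      exact ⟨hze, hz⟩
  · intro h z hz
    have hzS : z ∈ S := by simpa using hz
    obtain ⟨e, he, hes⟩ := h z hzS
    have hze : z ∈ e := by
      have : z ∈ e ∩ S := by rw [hes]; simp
      exact (mem_inter.mp this).1
    refine ⟨e, he, hze, ?_⟩
    intro x hx
    obtain ⟨hxz, hxe⟩ := mem_erase.mp hx
    simp only [mem_sdiff, mem_univ, true_and]
    intro hxS
    have : x ∈ e ∩ S := mem_inter.mpr ⟨hxe, hxS⟩
    rw [hes, mem_singleton] at this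
    exact hxz this

lemma phi_le_iff {n : ℕ} (E : Finset (Finset (Fin n))) (s : ℕ) : phi E ≤ s ↔ PhiLe E s := by
  classical
  unfold phi PhiLe
  rw [Finset.sup_le_iff]
  constructor
  · intro h S hS
    exact h S (mem_filter.mpr ⟨mem_univ _, (dominated_iff E S).mpr hS⟩)
  · intro h S hS
    exact h S ((dominated_iff E S).mp (mem_filter.mp hS).2)

/-- the complement of a covering has small dominated number -/
lemma phi_compl_cover {r s : ℕ} (hr : 1 ≤ r) (C : Finset (Finset (Fin (s + r))))
    (hC : IsCover (s + r) r (r - 1) C) :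
    phi ((Finset.powersetCard r (Finset.univ : Finset (Fin (s + r)))) \ C) ≤ s := by
  rw [phi_le_iff]
  intro S hS
  by_contra hlt
  push Not at hlt
  have hSc : (Finset.univ \ S).card + S.card = s + r := by
    have h1 := Finset.card_sdiff_add_card_eq_card (Finset.subset_univ S)
    rw [Finset.card_univ, Fintype.card_fin] at h1
    exact h1
  have hkey : ∀ z ∈ S, ∃ e, e ∈ Finset.powersetCard r (Finset.univ : Finset (Fin (s + r))) \ C ∧
      z ∈ e ∧ e.erase z = Finset.univ \ S := by
    intro z hz
    obtain ⟨e, he, hes⟩ := hS z hz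
    have hze : z ∈ e := by
      have : z ∈ e ∩ S := by rw [hes]; simp
      exact (mem_inter.mp this).1
    have hec : e.card = r := (Finset.mem_powersetCard.mp (mem_sdiff.mp he).1).2
    refine ⟨e, he, hze, ?_⟩
    apply Finset.eq_of_subset_of_card_le
    · intro x hx
      obtain ⟨hxz, hxe⟩ := mem_erase.mp hx
      simp only [mem_sdiff, mem_univ, true_and]
      intro hxS
      have : x ∈ e ∩ S := mem_inter.mpr ⟨hxe, hxS⟩
      rw [hes, mem_singleton] at this
      exact hxz this
    · rw [Finset.card_erase_of_mem hze, hec]; omega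
  have hSne : S.Nonempty := Finset.card_pos.mp (by omega)
  obtain ⟨z0, hz0⟩ := hSne
  obtain ⟨e0, he0, hze0, he0'⟩ := hkey z0 hz0
  have hTc : (Finset.univ \ S).card = r - 1 := by
    rw [← he0', Finset.card_erase_of_mem hze0, (Finset.mem_powersetCard.mp (mem_sdiff.mp he0).1).2]
  obtain ⟨c, hcC, hTc'⟩ := hC.2 _ hTc
  have hcc := hC.1 c hcC
  have hex : ∃ w ∈ c, w ∉ Finset.univ \ S := by
    by_contra hno
    push Not at hno
    have := Finset.card_le_card (show c ⊆ Finset.univ \ S from hno)
    omega
  obtain ⟨w, hwc, hwT⟩ := hex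
  have hwS : w ∈ S := by simpa using hwT
  obtain ⟨e, he, hwe, hew⟩ := hkey w hwS
  have hec : e.card = r := (Finset.mem_powersetCard.mp (mem_sdiff.mp he).1).2
  have hce : e = c := by
    apply Finset.eq_of_subset_of_card_le
    · intro x hx
      by_cases hxw : x = w
      · rw [hxw]; exact hwc
      · apply hTc'
        rw [← hew]
        exact mem_erase.mpr ⟨hxw, hx⟩
    · rw [hcc, hec]
  rw [hce] at he
  exact (mem_sdiff.mp he).2 hcC

lemma sizes_of_cover {r s : ℕ} (hr : 1 ≤ r) (C : Finset (Finset (Fin (s + r))))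
    (hC : IsCover (s + r) r (r - 1) C) : (s + r).choose r - C.card ∈ sizes r s := by
  refine ⟨s + r, (Finset.powersetCard r (Finset.univ : Finset (Fin (s + r)))) \ C, ?_,
    phi_compl_cover hr C hC, ?_⟩
  · intro e he
    exact (Finset.mem_powersetCard.mp (mem_sdiff.mp he).1).2
  · have hsub : C ⊆ Finset.powersetCard r (Finset.univ : Finset (Fin (s + r))) := by
      intro c hc
      exact Finset.mem_powersetCard.mpr ⟨Finset.subset_univ _, hC.1 c hc⟩
    rw [Finset.card_sdiff_of_subset hsub, Finset.card_powersetCard, Finset.card_univ, Fintype.card_fin]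

/-- all `r`-sets through a fixed point form a covering -/
lemma exists_star_cover {v r : ℕ} (hr : 1 ≤ r) (hv : r ≤ v) :
    ∃ C : Finset (Finset (Fin v)), IsCover v r (r - 1) C ∧ C.card = (v - 1).choose (r - 1) := by
  obtain ⟨p⟩ : Nonempty (Fin v) := ⟨⟨0, by omega⟩⟩
  refine ⟨(Finset.powersetCard (r - 1) (Finset.univ.erase p)).image (fun T => insert p T), ⟨?_, ?_⟩, ?_⟩
  · intro c hc
    obtain ⟨T, hT, rfl⟩ := mem_image.mp hc
    obtain ⟨hT1, hT2⟩ := Finset.mem_powersetCard.mp hT
    have hp : p ∉ T := fun h => by simpa using hT1 h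
    rw [Finset.card_insert_of_notMem hp, hT2]; omega
  · intro T hT
    by_cases hp : p ∈ T
    · -- extend by another point
      have hlt : T.card < (Finset.univ : Finset (Fin v)).card := by
        rw [Finset.card_univ, Fintype.card_fin]; omega
      obtain ⟨q, _, hq⟩ := Finset.exists_mem_notMem_of_card_lt_card hlt
      refine ⟨insert q T, mem_image.mpr ⟨(insert q T).erase p, ?_, ?_⟩, Finset.subset_insert _ _⟩
      · refine Finset.mem_powersetCard.mpr ⟨Finset.erase_subset_erase _ (Finset.subset_univ _), ?_⟩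
        rw [Finset.card_erase_of_mem (by simp [hp]), Finset.card_insert_of_notMem hq]; omega
      · exact Finset.insert_erase (by simp [hp])
    · refine ⟨insert p T, mem_image.mpr ⟨T, ?_, rfl⟩, Finset.subset_insert _ _⟩
      refine Finset.mem_powersetCard.mpr ⟨?_, hT⟩
      intro x hx
      refine mem_erase.mpr ⟨?_, mem_univ _⟩
      rintro rfl
      exact hp hx
  · rw [Finset.card_image_of_injOn, Finset.card_powersetCard, Finset.card_erase_of_mem (mem_univ _),
      Finset.card_univ, Fintype.card_fin]
    intro T hT T' hT' h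
    have hp : ∀ X ∈ Finset.powersetCard (r - 1) (Finset.univ.erase p), p ∉ X := by
      intro X hX hpX
      have := (Finset.mem_powersetCard.mp hX).1 hpX
      simp at this
    have h1 := hp T hT
    have h2 := hp T' hT'
    simp only at h
    rw [← Finset.erase_insert h1, ← Finset.erase_insert h2, h]

lemma coverNum_spec {v r : ℕ} (hr : 1 ≤ r) (hv : r ≤ v) :
    ∃ C : Finset (Finset (Fin v)), IsCover v r (r - 1) C ∧ C.card = coverNum v r (r - 1) := by
  obtain ⟨C, hC, _⟩ := exists_star_cover hr hv
  exact Nat.sInf_mem (s := {m | ∃ C : Finset (Finset (Fin v)), IsCover v r (r - 1) C ∧ C.card = m})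
    ⟨C.card, C, hC, rfl⟩

lemma coverNum_le {v k t : ℕ} (C : Finset (Finset (Fin v))) (hC : IsCover v k t C) :
    coverNum v k t ≤ C.card := Nat.sInf_le ⟨C, hC, rfl⟩

lemma coverNum_le_choose {v r : ℕ} (hr : 1 ≤ r) (hv : r ≤ v) :
    coverNum v r (r - 1) ≤ (v - 1).choose (r - 1) := by
  obtain ⟨C, hC, h⟩ := exists_star_cover hr hv
  rw [← h]
  exact coverNum_le C hC

/-- the lower bound of the conjecture -/
lemma lower {r s : ℕ} (hr : 1 ≤ r) : (s + r).choose r - coverNum (s + r) r (r - 1) ∈ sizes r s := by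
  obtain ⟨C, hC, h⟩ := coverNum_spec (v := s + r) hr (by omega)
  rw [← h]
  exact sizes_of_cover hr C hC

/-- the maximum in the conjecture is always its second entry -/
lemma max_eq {r s : ℕ} (hr : 1 ≤ r) : max ((s + r - 1).choose r)
    ((s + r).choose r - coverNum (s + r) r (r - 1)) = (s + r).choose r - coverNum (s + r) r (r - 1) := by
  apply max_eq_right
  have h := coverNum_le_choose (v := s + r) hr (by omega)
  obtain ⟨k, rfl⟩ : ∃ k, r = k + 1 := ⟨r - 1, by omega⟩
  have h2 : (s + (k + 1)).choose (k + 1) = (s + k).choose k + (s + k).choose (k + 1) := by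
    rw [← add_assoc]; exact Nat.choose_succ_succ _ _
  have h3 : s + (k + 1) - 1 = s + k := by omega
  simp only [Nat.add_sub_cancel] at h ⊢
  rw [h3] at h ⊢
  omega

/-- Steiner systems: number of blocks -/
lemma steiner_card {v r : ℕ} (hr : 1 ≤ r) (C : Finset (Finset (Fin v)))
    (hC : IsSteiner v r (r - 1) C) : C.card * r = v.choose (r - 1) := by
  classical
  have h1 : ∑ c ∈ C, (Finset.powersetCard (r - 1) c).card = C.card * r := by
    rw [Finset.sum_congr rfl (fun c hc => by
      rw [Finset.card_powersetCard, hC.1 c hc, Nat.choose_symm_of_eq_add (show r = (r - 1) + 1 by omega),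
        Nat.choose_one_right])]
    rw [Finset.sum_const, smul_eq_mul]
  rw [← h1, ← Finset.card_biUnion]
  · have : C.biUnion (fun c => Finset.powersetCard (r - 1) c) =
        Finset.powersetCard (r - 1) (Finset.univ : Finset (Fin v)) := by
      ext T
      simp only [mem_biUnion, Finset.mem_powersetCard, Finset.subset_univ, true_and]
      constructor
      · rintro ⟨c, _, _, h⟩; exact h
      · intro h
        obtain ⟨c, ⟨hc, hT⟩, _⟩ := hC.2 T h
        exact ⟨c, hc, hT, h⟩
    rw [this, Finset.card_powersetCard, Finset.card_univ, Fintype.card_fin]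
  · intro c hc c' hc' hne
    rw [Function.onFun, Finset.disjoint_left]
    intro T hT hT'
    obtain ⟨h1, h2⟩ := Finset.mem_powersetCard.mp hT
    obtain ⟨h1', _⟩ := Finset.mem_powersetCard.mp hT'
    obtain ⟨c0, _, huniq⟩ := hC.2 T h2
    exact hne ((huniq c ⟨hc, h1⟩).trans (huniq c' ⟨hc', h1'⟩).symm)

theorem steiner_isGreatest {r s : ℕ} (hr : 2 ≤ r) (C : Finset (Finset (Fin (s + r))))
    (hC : IsSteiner (s + r) r (r - 1) C) :
    IsGreatest (sizes r s) ((s + r).choose r - (s + r).choose (r - 1) / r) := by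
  have hcard := steiner_card (by omega) C hC
  have hdiv : (s + r).choose (r - 1) / r = C.card := by
    rw [← hcard]; exact Nat.mul_div_cancel _ (by omega)
  rw [hdiv]
  constructor
  · apply sizes_of_cover (by omega) C
    refine ⟨hC.1, fun T hT => ?_⟩
    obtain ⟨c, ⟨h1, h2⟩, _⟩ := hC.2 T hT
    exact ⟨c, h1, h2⟩
  · rintro m ⟨n, E, hE, hφ, rfl⟩
    have h := uniform_bound hr E hE ((phi_le_iff E s).mp hφ)
    obtain ⟨k, rfl⟩ : ∃ k, r = k + 1 := ⟨r - 1, by omega⟩
    simp only [Nat.add_sub_cancel] at hcard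
    have h1 : (s + (k + 1)).choose (k + 1) * (k + 1) = (s + (k + 1)).choose k * (s + 1) := by
      have := Nat.choose_succ_right_eq (s + (k + 1)) k
      rw [this]
      congr 1
      omega
    have h2 : (s + (k + 1)).choose (k + 1) = C.card * (s + 1) := by
      rw [← hcard] at h1
      have h3 : (s + (k + 1)).choose (k + 1) * (k + 1) = (C.card * (s + 1)) * (k + 1) := by
        rw [h1]; ring
      exact Nat.eq_of_mul_eq_mul_right (by omega) h3
    have h3 : 2 * ((s + 2).choose 2) = (s + 2) * (s + 1) := by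
      rw [Nat.choose_two_right]
      have := Nat.mul_div_cancel' (show 2 ∣ (s + 2) * (s + 2 - 1) from (Nat.even_mul_pred_self (s + 2)).two_dvd)
      rw [this]
      congr 1
    have h4 : 2 * (s * (s + 2) / 2) ≤ s * (s + 2) := Nat.mul_div_le _ _
    -- (s+2)(s+1)|E| <= choose * s (s+2)
    have h5 : (s + 2) * ((s + 1) * E.card) ≤ (s + 2) * (C.card * (s + 1) * s) := by
      calc (s + 2) * ((s + 1) * E.card) = 2 * ((s + 2).choose 2 * E.card) := by
            rw [← mul_assoc 2, h3]; ring
        _ ≤ 2 * ((s + (k + 1)).choose (k + 1) * (s * (s + 2) / 2)) := by omega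
        _ = (s + (k + 1)).choose (k + 1) * (2 * (s * (s + 2) / 2)) := by ring
        _ ≤ (s + (k + 1)).choose (k + 1) * (s * (s + 2)) := Nat.mul_le_mul_left _ h4
        _ = (s + 2) * (C.card * (s + 1) * s) := by rw [h2]; ring
    have h6 : (s + 1) * E.card ≤ (s + 1) * (C.card * s) := by
      have := Nat.le_of_mul_le_mul_left h5 (by omega)
      calc (s + 1) * E.card ≤ C.card * (s + 1) * s := this
        _ = (s + 1) * (C.card * s) := by ring
    have h7 : E.card ≤ C.card * s := Nat.le_of_mul_le_mul_left h6 (by omega)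
    rw [h2]
    have h8 : C.card * (s + 1) - C.card = C.card * s := by
      rw [Nat.mul_succ]; omega
    rw [h8]
    exact h7

end Pool.Agent.Lib.MP_9be8d1_co
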