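import Pool.Agent.Lib.MP_9be8d1_co.Cover

/-!
The conjectured bound for hypergraphs with at most `s + r + 1` vertices.
-/

namespace Pool.Agent.Lib.MP_9be8d1_co

open Finset

/-- transport: a family of `r`-subsets of an `m`-set that misses an extension of each
`(r-1)`-subset is small. -/
lemma good_card {α : Type*} [DecidableEq α] {r m : ℕ} (W : Finset α) (hW : W.card = m)
    (P : Finset (Finset α)) (hP : ∀ p ∈ P, p ⊆ W ∧ p.card = r) (hr : 1 ≤ r)
    (hgood : ∀ T ⊆ W, T.card = r - 1 → ∃ z ∈ W, z ∉ T ∧ insert z T ∉ P) :
    P.card + coverNum m r (r - 1) ≤ m.choose r := by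
  classical
  subst hW
  let φ : Fin W.card ↪ α := (W.equivFin.symm.toEmbedding).trans (Function.Embedding.subtype _)
  have hφW : ∀ i, φ i ∈ W := fun i => (W.equivFin.symm i).2
  have hφs : ∀ x ∈ W, ∃ i, φ i = x := fun x hx => ⟨W.equivFin ⟨x, hx⟩, by simp [φ]⟩
  have hmapW : ∀ A : Finset (Fin W.card), A.map φ ⊆ W := by
    intro A x hx
    obtain ⟨i, _, rfl⟩ := Finset.mem_map.mp hx
    exact hφW i
  have hlift : ∀ X ⊆ W, ∃ A : Finset (Fin W.card), A.map φ = X := by
    intro X hX
    refine ⟨Finset.univ.filter (fun i => φ i ∈ X), ?_⟩
    ext x
    simp only [Finset.mem_map, mem_filter, mem_univ, true_and]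
    constructor
    · rintro ⟨i, hi, rfl⟩; exact hi
    · intro hx
      obtain ⟨i, rfl⟩ := hφs x (hX hx)
      exact ⟨i, hx, rfl⟩
  set C := (Finset.powersetCard r (Finset.univ : Finset (Fin W.card))).filter (fun c => c.map φ ∉ P) with hC
  have hcover : IsCover W.card r (r - 1) C := by
    constructor
    · intro c hc
      exact (Finset.mem_powersetCard.mp (mem_filter.mp hc).1).2
    · intro T hT
      obtain ⟨z, hzW, hzT, hzP⟩ := hgood (T.map φ) (hmapW T) (by rw [Finset.card_map, hT])
      obtain ⟨i, rfl⟩ := hφs z hzW
      have hiT : i ∉ T := fun h => hzT (Finset.mem_map_of_mem φ h)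
      refine ⟨insert i T, mem_filter.mpr ⟨?_, ?_⟩, Finset.subset_insert _ _⟩
      · refine Finset.mem_powersetCard.mpr ⟨Finset.subset_univ _, ?_⟩
        rw [Finset.card_insert_of_notMem hiT, hT]; omega
      · rw [Finset.map_insert]; exact hzP
  have h1 := coverNum_le C hcover
  have h2 : P.card ≤ ((Finset.powersetCard r (Finset.univ : Finset (Fin W.card))).filter (fun c => ¬ c.map φ ∉ P)).card := by
    have hsub : P ⊆ ((Finset.powersetCard r (Finset.univ : Finset (Fin W.card))).filter (fun c => ¬ c.map φ ∉ P)).image (fun c => c.map φ) := by
      intro p hp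
      obtain ⟨hpW, hpc⟩ := hP p hp
      obtain ⟨A, rfl⟩ := hlift p hpW
      refine mem_image.mpr ⟨A, mem_filter.mpr ⟨?_, not_not.mpr hp⟩, rfl⟩
      exact Finset.mem_powersetCard.mpr ⟨Finset.subset_univ _, by rwa [Finset.card_map] at hpc⟩
    exact (Finset.card_le_card hsub).trans Finset.card_image_le
  have h3 := Finset.card_filter_add_card_filter_not (s := Finset.powersetCard r (Finset.univ : Finset (Fin W.card))) (fun c => c.map φ ∉ P)
  rw [Finset.card_powersetCard, Finset.card_univ, Fintype.card_fin, ← hC] at h3
  calc P.card + coverNum W.card r (r - 1) ≤ _ + C.card := add_le_add h2 h1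
    _ = W.card.choose r := by rw [add_comm]; exact h3

/-- the main construction: removal of one vertex -/
theorem few_vertices {α : Type*} [DecidableEq α] {r s : ℕ} (hr : 1 ≤ r) (U : Finset α) (v : α)
    (hv : v ∈ U) (hUc : U.card = s + r + 1) (E : Finset (Finset α))
    (hE : ∀ e ∈ E, e ⊆ U ∧ e.card = r) (hφ : PhiLe E s) :
    E.card + coverNum (s + r) r (r - 1) ≤ (s + r).choose r := by
  classical
  -- choice of the new vertex
  have hex : ∀ e ∈ E, ∃ y ∈ U, y ∉ e ∧ ∀ e' ∈ E, y ∈ e' → ¬ e'.erase y ⊆ e := by
    intro e he
    have h1 := nonsurv_card hφ U e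
    have h2 : (U \ e).card = s + 1 := by
      rw [Finset.card_sdiff_of_subset (hE e he).1, hUc, (hE e he).2]; omega
    obtain ⟨y, hy, hy'⟩ := Finset.exists_mem_notMem_of_card_lt_card
      (s := (U \ e).filter (fun a => ∃ e' ∈ E, a ∈ e' ∧ e'.erase a ⊆ e)) (t := U \ e) (by omega)
    refine ⟨y, (mem_sdiff.mp hy).1, (mem_sdiff.mp hy).2, ?_⟩
    intro e' he' hye' hsub
    exact hy' (mem_filter.mpr ⟨hy, e', he', hye', hsub⟩)
  haveI : Nonempty α := ⟨v⟩
  choose! y hyU hye hyP using hex
  set W := U.erase v with hWdef
  have hW : W.card = s + r := by rw [hWdef, Finset.card_erase_of_mem hv, hUc]; omega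
  set F : Finset α → Finset α := fun e => if v ∈ e then insert (y e) (e.erase v) else e with hF
  have hFv : ∀ e, v ∈ e → F e = insert (y e) (e.erase v) := fun e h => by rw [hF]; simp [h]
  have hFn : ∀ e, v ∉ e → F e = e := fun e h => by rw [hF]; simp [h]
  have hyv : ∀ e ∈ E, v ∈ e → y e ≠ v := by
    intro e he hve h
    exact hye e he (h ▸ hve)
  -- injectivity
  have hinj : Set.InjOn F (E : Set (Finset α)) := by
    -- auxiliary claim
    have key : ∀ e ∈ E, ∀ f ∈ E, v ∈ e → F e = F f → e = f := by
      intro e he f hf hve hEF
      rw [hFv e hve] at hEF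
      by_cases hvf : v ∈ f
      · rw [hFv f hvf] at hEF
        have hfsub : f ⊆ insert (y e) e := by
          intro x hx
          by_cases hxv : x = v
          · rw [hxv]; exact mem_insert_of_mem hve
          · have : x ∈ insert (y f) (f.erase v) := mem_insert_of_mem (mem_erase.mpr ⟨hxv, hx⟩)
            rw [← hEF] at this
            rcases mem_insert.mp this with h | h
            · rw [h]; exact mem_insert_self _ _
            · exact mem_insert_of_mem (mem_erase.mp h).2
        by_cases hyf : y e ∈ f
        · exfalso
          apply hyP e he f hf hyf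
          intro x hx
          obtain ⟨hxy, hxf⟩ := mem_erase.mp hx
          rcases mem_insert.mp (hfsub hxf) with h | h
          · exact absurd h hxy
          · exact h
        · have hfe : f ⊆ e := by
            intro x hx
            rcases mem_insert.mp (hfsub hx) with h | h
            · rw [h] at hx; exact absurd hx hyf
            · exact h
          exact (Finset.eq_of_subset_of_card_le hfe (by rw [(hE e he).2, (hE f hf).2])).symm
      · rw [hFn f hvf] at hEF
        exfalso
        apply hyP e he f hf (by rw [← hEF]; exact mem_insert_self _ _)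
        rw [← hEF]
        intro x hx
        obtain ⟨hxy, hx'⟩ := mem_erase.mp hx
        rcases mem_insert.mp hx' with h | h
        · exact absurd h hxy
        · exact (mem_erase.mp h).2
    intro e he f hf hEF
    by_cases hve : v ∈ e
    · exact key e he f hf hve hEF
    · by_cases hvf : v ∈ f
      · exact (key f hf e he hvf hEF.symm).symm
      · rwa [hFn e hve, hFn f hvf] at hEF
  rw [← Finset.card_image_of_injOn hinj]
  apply good_card W hW _ _ hr
  · -- goodness
    intro T hTW hTc
    by_contra hno
    push Not at hno
    have hvT : v ∉ T := fun h => by have := hTW h; simp [hWdef] at this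
    set S := W \ T with hS
    have hSc : S.card = s + 1 := by
      rw [hS, Finset.card_sdiff_of_subset hTW, hW, hTc]; omega
    have hall : ∀ z ∈ S, ∃ e ∈ E, F e = insert z T := by
      intro z hz
      obtain ⟨hzW, hzT⟩ := mem_sdiff.mp hz
      obtain ⟨e, he, h⟩ := mem_image.mp (hno z hzW hzT)
      exact ⟨e, he, h⟩
    have hvS : v ∉ S := fun h => by
      have := (mem_sdiff.mp h).1
      simp [hWdef] at this
    -- description of the preimages
    have hdesc : ∀ z ∈ S, insert z T ∈ E ∨ (insert v T ∈ E ∧ y (insert v T) = z) ∨
        (∃ f ∈ E, v ∈ f ∧ z ∈ f ∧ f ⊆ insert v (insert z T) ∧ y f ∈ T ∧ insert v (insert z T) ⊆ insert (y f) f) := by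
      intro z hz
      obtain ⟨hzW, hzT⟩ := mem_sdiff.mp hz
      have hzv : z ≠ v := fun h => hvS (h ▸ hz)
      obtain ⟨f, hf, hFf⟩ := hall z hz
      by_cases hvf : v ∈ f
      · rw [hFv f hvf] at hFf
        have hsub1 : f ⊆ insert v (insert z T) := by
          intro x hx
          by_cases hxv : x = v
          · rw [hxv]; exact mem_insert_self _ _
          · apply mem_insert_of_mem
            rw [← hFf]
            exact mem_insert_of_mem (mem_erase.mpr ⟨hxv, hx⟩)
        have hsub2 : insert v (insert z T) ⊆ insert (y f) f := by
          intro x hx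
          rcases mem_insert.mp hx with h | h
          · rw [h]; exact mem_insert_of_mem hvf
          · rw [← hFf] at h
            rcases mem_insert.mp h with h | h
            · rw [h]; exact mem_insert_self _ _
            · exact mem_insert_of_mem (mem_erase.mp h).2
        have hyfm : y f ∈ insert z T := by rw [← hFf]; exact mem_insert_self _ _
        rcases mem_insert.mp hyfm with h | h
        · -- y f = z
          right; left
          have hfeq : f = insert v T := by
            have hzf : z ∉ f := by rw [← h]; exact hye f hf
            apply Finset.eq_of_subset_of_card_le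
            · intro x hx
              rcases mem_insert.mp (hsub1 hx) with h' | h'
              · rw [h']; exact mem_insert_self _ _
              · rcases mem_insert.mp h' with h'' | h''
                · rw [h''] at hx; exact absurd hx hzf
                · exact mem_insert_of_mem h''
            · rw [Finset.card_insert_of_notMem hvT, hTc, (hE f hf).2]; omega
          rw [← hfeq]
          exact ⟨hf, h⟩
        · right; right
          refine ⟨f, hf, hvf, ?_, hsub1, h, hsub2⟩
          have hzin : z ∈ insert (y f) f := hsub2 (mem_insert_of_mem (mem_insert_self _ _))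
          rcases mem_insert.mp hzin with h' | h'
          · rw [h'] at hzT; exact absurd h hzT
          · exact h'
      · left
        rw [hFn f hvf] at hFf
        rw [← hFf]; exact hf
    by_cases hcase : ∃ x ∈ S, insert v T ∈ E ∧ y (insert v T) = x
    · obtain ⟨x, hxS, hvTE, hyx⟩ := hcase
      have hP : Priv E (insert v (S.erase x)) := by
        intro z hz
        rcases mem_insert.mp hz with rfl | hz
        · refine ⟨insert z T, hvTE, ?_⟩
          ext w
          simp only [mem_inter, mem_insert, mem_singleton]
          constructor
          · rintro ⟨h1 | h1, h2 | h2⟩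
            · exact h1
            · exact h1
            · exact h2
            · have := (mem_sdiff.mp (mem_erase.mp h2).2).2
              exact absurd h1 this
          · rintro rfl
            exact ⟨Or.inl rfl, Or.inl rfl⟩
        · obtain ⟨hzx, hzS⟩ := mem_erase.mp hz
          have hzT : insert z T ∈ E := by
            rcases hdesc z hzS with h | h | h
            · exact h
            · exact absurd (h.2.symm.trans hyx) hzx
            · exfalso
              obtain ⟨f, hf, hvf, hzf, hfs, hyfT, hfs2⟩ := h
              apply hyP f hf _ hvTE (mem_insert_of_mem hyfT)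
              intro w hw
              obtain ⟨hwy, hw⟩ := mem_erase.mp hw
              have : w ∈ insert (y f) f := by
                apply hfs2
                rcases mem_insert.mp hw with h' | h'
                · rw [h']; exact mem_insert_self _ _
                · exact mem_insert_of_mem (mem_insert_of_mem h')
              rcases mem_insert.mp this with h' | h'
              · exact absurd h' hwy
              · exact h'
          refine ⟨insert z T, hzT, ?_⟩
          ext w
          simp only [mem_inter, mem_insert, mem_singleton]
          constructor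
          · rintro ⟨h1 | h1, h2 | h2⟩
            · exact h1
            · exact h1
            · rw [h2] at h1; exact absurd h1 hvT
            · have := (mem_sdiff.mp (mem_erase.mp h2).2).2
              exact absurd h1 this
          · rintro rfl
            exact ⟨Or.inl rfl, Or.inr (mem_erase.mpr ⟨hzx, hzS⟩)⟩
      have := hφ _ hP
      rw [Finset.card_insert_of_notMem (fun h => hvS (mem_erase.mp h).2),
        Finset.card_erase_of_mem hxS, hSc] at this
      omega
    · push Not at hcase
      have hP : Priv E S := by
        intro z hz
        have hzT := (mem_sdiff.mp hz).2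
        rcases hdesc z hz with h | h | h
        · refine ⟨insert z T, h, ?_⟩
          ext w
          simp only [mem_inter, mem_insert, mem_singleton]
          constructor
          · rintro ⟨h1 | h1, h2⟩
            · exact h1
            · exact absurd h1 (mem_sdiff.mp h2).2
          · rintro rfl
            exact ⟨Or.inl rfl, hz⟩
        · exact absurd h.2 (hcase z hz h.1)
        · obtain ⟨f, hf, hvf, hzf, hfs, hyfT, hfs2⟩ := h
          refine ⟨f, hf, ?_⟩
          ext w
          simp only [mem_inter, mem_singleton]
          constructor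
          · rintro ⟨h1, h2⟩
            rcases mem_insert.mp (hfs h1) with h' | h'
            · rw [h'] at h2; exact absurd h2 hvS
            · rcases mem_insert.mp h' with h'' | h''
              · exact h''
              · exact absurd h'' (mem_sdiff.mp h2).2
          · rintro rfl
            exact ⟨hzf, hz⟩
      have := hφ _ hP
      omega
  · -- members of the image
    intro p hp
    obtain ⟨e, he, rfl⟩ := mem_image.mp hp
    by_cases hve : v ∈ e
    · rw [hFv e hve]
      constructor
      · intro x hx
        rcases mem_insert.mp hx with h | h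
        · rw [h]; exact mem_erase.mpr ⟨hyv e he hve, hyU e he⟩
        · exact mem_erase.mpr ⟨(mem_erase.mp h).1, (hE e he).1 (mem_erase.mp h).2⟩
      · rw [Finset.card_insert_of_notMem (fun h => hye e he (mem_erase.mp h).2),
          Finset.card_erase_of_mem hve, (hE e he).2]; omega
    · rw [hFn e hve]
      refine ⟨?_, (hE e he).2⟩
      intro x hx
      refine mem_erase.mpr ⟨?_, (hE e he).1 hx⟩
      rintro rfl
      exact hve hx

/-- version for hypergraphs on `Fin n`, `n ≤ s + r + 1` -/
theorem few_fin {n r s : ℕ} (hr : 1 ≤ r) (hn : n ≤ s + r + 1) (E : Finset (Finset (Fin n)))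
    (hE : ∀ e ∈ E, e.card = r) (hφ : phi E ≤ s) :
    E.card + coverNum (s + r) r (r - 1) ≤ (s + r).choose r := by
  classical
  rw [phi_le_iff] at hφ
  set ψ : Fin n ↪ ℕ := Fin.valEmbedding with hψ
  set E' : Finset (Finset ℕ) := E.image (fun e => e.map ψ) with hE'
  have hcard : E'.card = E.card := by
    apply Finset.card_image_of_injective
    exact Finset.map_injective ψ
  rw [← hcard]
  apply few_vertices hr (Finset.range (s + r + 1)) 0 (by simp) (by simp) E'
  · intro e he
    obtain ⟨e0, he0, rfl⟩ := mem_image.mp he
    refine ⟨?_, by rw [Finset.card_map, hE e0 he0]⟩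
    intro x hx
    obtain ⟨i, _, rfl⟩ := Finset.mem_map.mp hx
    have := i.2
    simp only [hψ, Fin.valEmbedding_apply, mem_range]
    omega
  · intro S hS
    have hSsub : ∀ z ∈ S, ∃ i : Fin n, ψ i = z := by
      intro z hz
      obtain ⟨e, he, hes⟩ := hS z hz
      obtain ⟨e0, he0, rfl⟩ := mem_image.mp he
      have : z ∈ e0.map ψ ∩ S := by rw [hes]; simp
      obtain ⟨i, _, hi⟩ := Finset.mem_map.mp (mem_inter.mp this).1
      exact ⟨i, hi⟩
    set S0 : Finset (Fin n) := Finset.univ.filter (fun i => ψ i ∈ S) with hS0
    have hSmap : S0.map ψ = S := by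
      ext x
      simp only [Finset.mem_map, hS0, mem_filter, mem_univ, true_and]
      constructor
      · rintro ⟨i, hi, rfl⟩; exact hi
      · intro hx
        obtain ⟨i, rfl⟩ := hSsub x hx
        exact ⟨i, hx, rfl⟩
    have hP : Priv E S0 := by
      intro i hi
      have hi' : ψ i ∈ S := by simpa [hS0] using hi
      obtain ⟨e, he, hes⟩ := hS _ hi'
      obtain ⟨e0, he0, rfl⟩ := mem_image.mp he
      refine ⟨e0, he0, ?_⟩
      apply Finset.map_injective ψ
      rw [Finset.map_inter, hSmap, hes, Finset.map_singleton]
    have := hφ _ hP
    rw [← hSmap, Finset.card_map]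
    exact this

end Pool.Agent.Lib.MP_9be8d1_co
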