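import Pool.Agent.Lib.MP_9be8d1_co.Cover

/-!
Optimal coverings of pairs by triples (the constructions behind the Fort-Hedlund theorem), and
the case `r = 3`.
-/

namespace Pool.Agent.Lib.MP_9be8d1_co

open Finset

/-- the pair `a, b` lies in a block -/
def Cov (B : Finset (Finset ℕ)) (a b : ℕ) : Prop := ∃ X ∈ B, a ∈ X ∧ b ∈ X

lemma Cov.symm {B : Finset (Finset ℕ)} {a b : ℕ} (h : Cov B a b) : Cov B b a := by
  obtain ⟨X, hX, ha, hb⟩ := h
  exact ⟨X, hX, hb, ha⟩

lemma Cov.mono {B B' : Finset (Finset ℕ)} {a b : ℕ} (h : Cov B a b) (hs : B ⊆ B') : Cov B' a b := by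
  obtain ⟨X, hX, ha, hb⟩ := h
  exact ⟨X, hs hX, ha, hb⟩

/-- transport to `coverNum` -/
lemma coverNum_le_of_nat {v m : ℕ} (hv : 3 ≤ v) (B : Finset (Finset ℕ)) (hB3 : ∀ X ∈ B, X.card ≤ 3)
    (hcov : ∀ a b, a < b → b < v → Cov B a b) (hm : B.card ≤ m) : coverNum v 3 2 ≤ m := by
  classical
  have hex : ∀ X ∈ B, ∃ A : Finset (Fin v), A.card = 3 ∧ ∀ i : Fin v, (i : ℕ) ∈ X → i ∈ A := by
    intro X hX
    have hc : ((Finset.univ : Finset (Fin v)).filter (fun i : Fin v => (i : ℕ) ∈ X)).card ≤ 3 := by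
      have h1 : ((Finset.univ : Finset (Fin v)).filter (fun i : Fin v => (i : ℕ) ∈ X)).card ≤ X.card := by
        apply Finset.card_le_card_of_injOn (fun i : Fin v => (i : ℕ))
        · intro i hi
          have := (mem_filter.mp hi).2
          exact this
        · intro i _ j _ h
          exact Fin.ext h
      exact h1.trans (hB3 X hX)
    obtain ⟨A, hA1, hA2⟩ := Finset.exists_superset_card_eq hc (by rw [Fintype.card_fin]; exact hv)
    exact ⟨A, hA2, fun i hi => hA1 (mem_filter.mpr ⟨mem_univ _, hi⟩)⟩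
  choose! A hA3 hA using hex
  have hcover : IsCover v 3 2 (B.image A) := by
    constructor
    · intro c hc
      obtain ⟨X, hX, rfl⟩ := mem_image.mp hc
      exact hA3 X hX
    · intro T hT
      obtain ⟨x, y, hxy, rfl⟩ := Finset.card_eq_two.mp hT
      have hne : (x : ℕ) ≠ (y : ℕ) := fun h => hxy (Fin.ext h)
      have hc : Cov B x y := by
        rcases lt_or_gt_of_ne hne with h | h
        · exact hcov x y h y.2
        · exact (hcov y x h x.2).symm
      obtain ⟨X, hX, hx, hy⟩ := hc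
      refine ⟨A X, mem_image_of_mem _ hX, ?_⟩
      intro z hz
      simp only [mem_insert, mem_singleton] at hz
      rcases hz with rfl | rfl
      · exact hA X hX _ hx
      · exact hA X hX _ hy
  exact (coverNum_le _ hcover).trans (Finset.card_image_le.trans hm)

/-- blocks indexed by pairs `x < y < q` -/
def Fam (q : ℕ) (B : ℕ → ℕ → Finset ℕ) : Finset (Finset ℕ) :=
  (range q).biUnion (fun y => (range y).image (fun x => B x y))

lemma card_Fam (q : ℕ) (B : ℕ → ℕ → Finset ℕ) : 2 * (Fam q B).card ≤ q * (q - 1) := by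
  have h1 : (Fam q B).card ≤ ∑ y ∈ range q, y := by
    refine Finset.card_biUnion_le.trans (Finset.sum_le_sum ?_)
    intro y _
    exact Finset.card_image_le.trans (by simp)
  have h2 := Finset.sum_range_id_mul_two q
  omega

lemma mem_Fam {q x y : ℕ} (B : ℕ → ℕ → Finset ℕ) (hxy : x < y) (hy : y < q) : B x y ∈ Fam q B := by
  unfold Fam
  rw [mem_biUnion]
  exact ⟨y, by simpa using hy, mem_image.mpr ⟨x, by simpa using hxy, rfl⟩⟩

/-- the block with base offsets `p, p'` -/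
def Bl (p p' : ℕ) (f : ℕ → ℕ → ℕ) (x y : ℕ) : Finset ℕ := {p + x, p + y, p' + f x y}

lemma card_three (a b c : ℕ) : ({a, b, c} : Finset ℕ).card ≤ 3 := Finset.card_le_three

lemma Fam_card3 {q p p' : ℕ} {f : ℕ → ℕ → ℕ} : ∀ X ∈ Fam q (Bl p p' f), X.card ≤ 3 := by
  intro X hX
  unfold Fam at hX
  rw [mem_biUnion] at hX
  obtain ⟨y, _, hX⟩ := hX
  obtain ⟨x, _, rfl⟩ := mem_image.mp hX
  exact card_three _ _ _

lemma cov_same {q p p' x y : ℕ} {f : ℕ → ℕ → ℕ} (hx : x < q) (hy : y < q) (hxy : x ≠ y) :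
    Cov (Fam q (Bl p p' f)) (p + x) (p + y) := by
  rcases lt_or_gt_of_ne hxy with h | h
  · exact ⟨_, mem_Fam _ h hy, by simp [Bl], by simp [Bl]⟩
  · exact ⟨_, mem_Fam _ h hx, by simp [Bl], by simp [Bl]⟩

lemma cov_cross {q p p' x y : ℕ} {f : ℕ → ℕ → ℕ} (hc : ∀ x y, f x y = f y x) (hx : x < q) (hy : y < q)
    (hxy : x ≠ y) : Cov (Fam q (Bl p p' f)) (p + x) (p' + f x y) := by
  rcases lt_or_gt_of_ne hxy with h | h
  · exact ⟨_, mem_Fam _ h hy, by simp [Bl], by simp [Bl]⟩
  · refine ⟨_, mem_Fam _ h hx, by simp [Bl], ?_⟩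
    simp [Bl, hc x y]

/-- the basic family -/
def Base (q : ℕ) (f0 f1 f2 : ℕ → ℕ → ℕ) : Finset (Finset ℕ) :=
  Fam q (Bl 0 q f0) ∪ (Fam q (Bl q (2 * q) f1) ∪ Fam q (Bl (2 * q) 0 f2))

lemma card_Base (q : ℕ) (f0 f1 f2 : ℕ → ℕ → ℕ) : 2 * (Base q f0 f1 f2).card ≤ 3 * (q * (q - 1)) := by
  have h1 := Finset.card_union_le (Fam q (Bl 0 q f0)) (Fam q (Bl q (2 * q) f1) ∪ Fam q (Bl (2 * q) 0 f2))
  have h2 := Finset.card_union_le (Fam q (Bl q (2 * q) f1)) (Fam q (Bl (2 * q) 0 f2))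
  have h3 := card_Fam q (Bl 0 q f0)
  have h4 := card_Fam q (Bl q (2 * q) f1)
  have h5 := card_Fam q (Bl (2 * q) 0 f2)
  unfold Base
  omega

lemma Base_card3 {q : ℕ} {f0 f1 f2 : ℕ → ℕ → ℕ} : ∀ X ∈ Base q f0 f1 f2, X.card ≤ 3 := by
  intro X hX
  unfold Base at hX
  rw [mem_union, mem_union] at hX
  rcases hX with h | h | h <;> exact Fam_card3 X h

/-- What the basic family covers. `g_i x z` solves `f_i x y = z`. -/
lemma Base_cov {q : ℕ} {f0 f1 f2 g0 g1 g2 : ℕ → ℕ → ℕ}
    (c0 : ∀ x y, f0 x y = f0 y x) (c1 : ∀ x y, f1 x y = f1 y x) (c2 : ∀ x y, f2 x y = f2 y x)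
    (h0 : ∀ x z, x < q → z < q → g0 x z < q ∧ f0 x (g0 x z) = z)
    (h1 : ∀ x z, x < q → z < q → g1 x z < q ∧ f1 x (g1 x z) = z)
    (h2 : ∀ x z, x < q → z < q → g2 x z < q ∧ f2 x (g2 x z) = z)
    (B : Finset (Finset ℕ)) (hB : Base q f0 f1 f2 ⊆ B)
    (r0 : ∀ x, x < q → Cov B x (q + f0 x x)) (r1 : ∀ x, x < q → Cov B (q + x) (2 * q + f1 x x))
    (r2 : ∀ x, x < q → Cov B (2 * q + x) (f2 x x)) :
    ∀ a b, a < b → b < 3 * q → Cov B a b := by
  intro a b hab hb
  have hs0 : Fam q (Bl 0 q f0) ⊆ B := fun X hX => hB (mem_union_left _ hX)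
  have hs1 : Fam q (Bl q (2 * q) f1) ⊆ B := fun X hX => hB (mem_union_right _ (mem_union_left _ hX))
  have hs2 : Fam q (Bl (2 * q) 0 f2) ⊆ B := fun X hX => hB (mem_union_right _ (mem_union_right _ hX))
  by_cases ha0 : a < q
  · by_cases hb0 : b < q
    · have := (cov_same (p := 0) (p' := q) (f := f0) ha0 hb0 (by omega)).mono hs0
      simpa using this
    · by_cases hb1 : b < 2 * q
      · obtain ⟨z, rfl⟩ : ∃ z, b = q + z := ⟨b - q, by omega⟩
        have hz : z < q := by omega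
        obtain ⟨hy, hf⟩ := h0 a z ha0 hz
        by_cases hya : g0 a z = a
        · rw [hya] at hf
          have := r0 a ha0
          rwa [hf] at this
        · have := (cov_cross (p := 0) (p' := q) c0 ha0 hy (Ne.symm hya)).mono hs0
          rw [hf] at this
          simpa using this
      · obtain ⟨z, rfl⟩ : ∃ z, b = 2 * q + z := ⟨b - 2 * q, by omega⟩
        have hz : z < q := by omega
        obtain ⟨hy, hf⟩ := h2 z a hz ha0
        by_cases hya : g2 z a = z
        · rw [hya] at hf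
          have := (r2 z hz).symm
          rwa [hf] at this
        · have := (cov_cross (p := 2 * q) (p' := 0) c2 hz hy (Ne.symm hya)).mono hs2
          rw [hf] at this
          simpa using this.symm
  · by_cases ha1 : a < 2 * q
    · obtain ⟨x, rfl⟩ : ∃ x, a = q + x := ⟨a - q, by omega⟩
      have hx : x < q := by omega
      by_cases hb1 : b < 2 * q
      · obtain ⟨y, rfl⟩ : ∃ y, b = q + y := ⟨b - q, by omega⟩
        exact (cov_same (p := q) (p' := 2 * q) (f := f1) hx (by omega) (by omega)).mono hs1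
      · obtain ⟨z, rfl⟩ : ∃ z, b = 2 * q + z := ⟨b - 2 * q, by omega⟩
        have hz : z < q := by omega
        obtain ⟨hy, hf⟩ := h1 x z hx hz
        by_cases hya : g1 x z = x
        · rw [hya] at hf
          have := r1 x hx
          rwa [hf] at this
        · have := (cov_cross (p := q) (p' := 2 * q) c1 hx hy (Ne.symm hya)).mono hs1
          rwa [hf] at this
    · obtain ⟨x, rfl⟩ : ∃ x, a = 2 * q + x := ⟨a - 2 * q, by omega⟩
      obtain ⟨y, rfl⟩ : ∃ y, b = 2 * q + y := ⟨b - 2 * q, by omega⟩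
      exact (cov_same (p := 2 * q) (p' := 0) (f := f2) (by omega) (by omega) (by omega)).mono hs2

/-- halving in `Z/(2t+1)` -/
def hf (t x y : ℕ) : ℕ :=
  if (x + y) % 2 = 0 then (x + y) / 2 else
    if x + y < 2 * t + 1 then (x + y + (2 * t + 1)) / 2 else (x + y - (2 * t + 1)) / 2

def hs (t x z : ℕ) : ℕ :=
  if x ≤ 2 * z then (if 2 * z - x < 2 * t + 1 then 2 * z - x else 2 * z - x - (2 * t + 1))
  else 2 * z + (2 * t + 1) - x

lemma hf_comm (t x y : ℕ) : hf t x y = hf t y x := by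
  unfold hf; rw [add_comm x y]

lemma hs_spec (t x z : ℕ) (hx : x < 2 * t + 1) (hz : z < 2 * t + 1) :
    hs t x z < 2 * t + 1 ∧ hf t x (hs t x z) = z := by
  unfold hs hf
  constructor <;> split_ifs <;> omega

lemma hf_diag (t x : ℕ) : hf t x x = x := by
  unfold hf; split_ifs <;> omega

lemma hf_lt (t x y : ℕ) (hx : x < 2 * t + 1) (hy : y < 2 * t + 1) : hf t x y < 2 * t + 1 := by
  unfold hf; split_ifs <;> omega

def ng (t x : ℕ) : ℕ := if x = 0 then 0 else 2 * t + 1 - x

lemma ng_spec (t x : ℕ) (hx : x < 2 * t + 1) : ng t x < 2 * t + 1 ∧ ng t (ng t x) = x := by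
  unfold ng; constructor <;> split_ifs <;> omega

/-- half idempotent operation on `Z/(2t)` -/
def sf (t x y : ℕ) : ℕ :=
  if x + y < 2 * t then (if (x + y) % 2 = 0 then (x + y) / 2 else t + (x + y) / 2)
  else (if (x + y) % 2 = 0 then (x + y - 2 * t) / 2 else t + (x + y - 2 * t) / 2)

def ss (t x z : ℕ) : ℕ :=
  if z < t then (if x ≤ 2 * z then 2 * z - x else 2 * z + 2 * t - x)
  else (if x ≤ 2 * (z - t) + 1 then 2 * (z - t) + 1 - x else 2 * (z - t) + 1 + 2 * t - x)

lemma sf_comm (t x y : ℕ) : sf t x y = sf t y x := by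
  unfold sf; rw [add_comm x y]

lemma ss_spec (t x z : ℕ) (hx : x < 2 * t) (hz : z < 2 * t) :
    ss t x z < 2 * t ∧ sf t x (ss t x z) = z := by
  unfold ss sf
  constructor <;> split_ifs <;> omega

lemma sf_diag (t x : ℕ) (hx : x < 2 * t) : sf t x x = if x < t then x else x - t := by
  unfold sf; split_ifs <;> omega


/-- blocks indexed by `range n` -/
def Img (n : ℕ) (B : ℕ → Finset ℕ) : Finset (Finset ℕ) := (range n).image B

lemma card_Img (n : ℕ) (B : ℕ → Finset ℕ) : (Img n B).card ≤ n := by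
  unfold Img; exact Finset.card_image_le.trans (by simp)

lemma mem_Img {n j : ℕ} (B : ℕ → Finset ℕ) (hj : j < n) : B j ∈ Img n B :=
  mem_image.mpr ⟨j, by simpa using hj, rfl⟩

lemma cov_Img {n j a b : ℕ} (B : ℕ → Finset ℕ) (hj : j < n) (ha : a ∈ B j) (hb : b ∈ B j) :
    Cov (Img n B) a b := ⟨B j, mem_Img B hj, ha, hb⟩

lemma Img_card3 {n : ℕ} {B : ℕ → Finset ℕ} (h : ∀ j, (B j).card ≤ 3) : ∀ X ∈ Img n B, X.card ≤ 3 := by
  intro X hX
  obtain ⟨j, _, rfl⟩ := mem_image.mp hX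
  exact h j

lemma union_card3 {A B : Finset (Finset ℕ)} (hA : ∀ X ∈ A, X.card ≤ 3) (hB : ∀ X ∈ B, X.card ≤ 3) :
    ∀ X ∈ A ∪ B, X.card ≤ 3 := by
  intro X hX
  rcases mem_union.mp hX with h | h
  · exact hA X h
  · exact hB X h

lemma Cov.left {A B : Finset (Finset ℕ)} {a b : ℕ} (h : Cov A a b) : Cov (A ∪ B) a b :=
  h.mono subset_union_left

lemma Cov.right {A B : Finset (Finset ℕ)} {a b : ℕ} (h : Cov B a b) : Cov (A ∪ B) a b :=
  h.mono subset_union_right

/-! ### v = 6 t + 3 -/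

def FA (t : ℕ) : Finset (Finset ℕ) :=
  Base (2 * t + 1) (hf t) (hf t) (hf t) ∪
    Img (2 * t + 1) (fun x => {x, (2 * t + 1) + x, 2 * (2 * t + 1) + x})

lemma FA_card (t : ℕ) : (FA t).card ≤ (2 * t + 1) * (3 * t + 1) := by
  have h1 := card_Base (2 * t + 1) (hf t) (hf t) (hf t)
  have h2 := card_Img (2 * t + 1) (fun x => {x, (2 * t + 1) + x, 2 * (2 * t + 1) + x})
  have h3 := Finset.card_union_le (Base (2 * t + 1) (hf t) (hf t) (hf t))
    (Img (2 * t + 1) (fun x => {x, (2 * t + 1) + x, 2 * (2 * t + 1) + x}))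
  unfold FA
  have h4 : 2 * t + 1 - 1 = 2 * t := by omega
  rw [h4] at h1
  nlinarith

lemma FA_card3 (t : ℕ) : ∀ X ∈ FA t, X.card ≤ 3 :=
  union_card3 Base_card3 (Img_card3 (fun _ => card_three _ _ _))

lemma FA_cov (t : ℕ) : ∀ a b, a < b → b < 3 * (2 * t + 1) → Cov (FA t) a b := by
  apply Base_cov (hf_comm t) (hf_comm t) (hf_comm t) (hs_spec t) (hs_spec t) (hs_spec t) (FA t)
    subset_union_left
  · intro x hx
    rw [hf_diag]
    exact (cov_Img (j := x) _ hx (by simp) (by simp)).right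
  · intro x hx
    rw [hf_diag]
    exact (cov_Img (j := x) _ hx (by simp) (by simp)).right
  · intro x hx
    rw [hf_diag]
    exact (cov_Img (j := x) _ hx (by simp) (by simp)).right

theorem caseA (t : ℕ) : coverNum (6 * t + 3) 3 2 ≤ (2 * t + 1) * (3 * t + 1) := by
  apply coverNum_le_of_nat (by omega) (FA t) (FA_card3 t) _ (FA_card t)
  intro a b hab hb
  exact FA_cov t a b hab (by omega)

/-! ### v = 6 t + 4 -/

def FE (t : ℕ) : Finset (Finset ℕ) :=
  FA t ∪ (Img (2 * t + 1) (fun x => {3 * (2 * t + 1), x, (2 * t + 1) + x}) ∪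
    Img (t + 1) (fun j => {3 * (2 * t + 1), 2 * (2 * t + 1) + j, 2 * (2 * t + 1) + (t + j)}))

theorem caseE (t : ℕ) : coverNum (6 * t + 4) 3 2 ≤ 6 * t * t + 8 * t + 3 := by
  apply coverNum_le_of_nat (by omega) (FE t)
  · exact union_card3 (FA_card3 t) (union_card3 (Img_card3 (fun _ => card_three _ _ _))
      (Img_card3 (fun _ => card_three _ _ _)))
  · intro a b hab hb
    by_cases h : b < 3 * (2 * t + 1)
    · exact (FA_cov t a b hab h).left
    · have hb' : b = 3 * (2 * t + 1) := by omega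
      subst hb'
      by_cases h0 : a < 2 * t + 1
      · exact (cov_Img (j := a) (fun x => {3 * (2 * t + 1), x, (2 * t + 1) + x}) h0 (by simp) (by simp)).left.right
      · by_cases h1 : a < 2 * (2 * t + 1)
        · obtain ⟨x, rfl⟩ : ∃ x, a = (2 * t + 1) + x := ⟨a - (2 * t + 1), by omega⟩
          exact (cov_Img (j := x) (fun x => {3 * (2 * t + 1), x, (2 * t + 1) + x}) (by omega) (by simp) (by simp)).left.right
        · obtain ⟨x, rfl⟩ : ∃ x, a = 2 * (2 * t + 1) + x := ⟨a - 2 * (2 * t + 1), by omega⟩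
          by_cases hx : x < t
          · exact (cov_Img (j := x) (fun j => {3 * (2 * t + 1), 2 * (2 * t + 1) + j, 2 * (2 * t + 1) + (t + j)})
              (by omega) (by simp) (by simp)).right.right
          · obtain ⟨y, rfl⟩ : ∃ y, x = t + y := ⟨x - t, by omega⟩
            exact (cov_Img (j := y) (fun j => {3 * (2 * t + 1), 2 * (2 * t + 1) + j, 2 * (2 * t + 1) + (t + j)})
              (by omega) (by simp) (by simp)).right.right
  · have h1 := FA_card t
    have h2 := card_Img (2 * t + 1) (fun x => {3 * (2 * t + 1), x, (2 * t + 1) + x})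
    have h3 := card_Img (t + 1) (fun j => {3 * (2 * t + 1), 2 * (2 * t + 1) + j, 2 * (2 * t + 1) + (t + j)})
    have h4 := Finset.card_union_le (FA t) (Img (2 * t + 1) (fun x => {3 * (2 * t + 1), x, (2 * t + 1) + x}) ∪
      Img (t + 1) (fun j => {3 * (2 * t + 1), 2 * (2 * t + 1) + j, 2 * (2 * t + 1) + (t + j)}))
    have h5 := Finset.card_union_le (Img (2 * t + 1) (fun x => {3 * (2 * t + 1), x, (2 * t + 1) + x}))
      (Img (t + 1) (fun j => {3 * (2 * t + 1), 2 * (2 * t + 1) + j, 2 * (2 * t + 1) + (t + j)}))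
    unfold FE
    nlinarith

/-! ### v = 6 t + 1 -/

def FBx (t : ℕ) : Finset (Finset ℕ) :=
  Img t (fun x => {x, 2 * t + x, 2 * (2 * t) + x}) ∪
  (Img t (fun x => {3 * (2 * t), t + x, 2 * t + x}) ∪
  (Img t (fun x => {3 * (2 * t), 2 * t + (t + x), 2 * (2 * t) + x}) ∪
   Img t (fun x => {3 * (2 * t), 2 * (2 * t) + (t + x), x})))

def FB (t : ℕ) : Finset (Finset ℕ) := Base (2 * t) (sf t) (sf t) (sf t) ∪ FBx t

lemma FBx_card (t : ℕ) : (FBx t).card ≤ 4 * t := by
  unfold FBx
  refine (Finset.card_union_le _ _).trans ?_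
  have h1 := card_Img t (fun x => {x, 2 * t + x, 2 * (2 * t) + x})
  have h2 : (Img t (fun x => {3 * (2 * t), t + x, 2 * t + x}) ∪
    (Img t (fun x => {3 * (2 * t), 2 * t + (t + x), 2 * (2 * t) + x}) ∪
     Img t (fun x => {3 * (2 * t), 2 * (2 * t) + (t + x), x}))).card ≤ 3 * t := by
    refine (Finset.card_union_le _ _).trans ?_
    have h3 := card_Img t (fun x => {3 * (2 * t), t + x, 2 * t + x})
    have h4 : (Img t (fun x => {3 * (2 * t), 2 * t + (t + x), 2 * (2 * t) + x}) ∪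
     Img t (fun x => {3 * (2 * t), 2 * (2 * t) + (t + x), x})).card ≤ 2 * t := by
      refine (Finset.card_union_le _ _).trans ?_
      have h5 := card_Img t (fun x => {3 * (2 * t), 2 * t + (t + x), 2 * (2 * t) + x})
      have h6 := card_Img t (fun x => {3 * (2 * t), 2 * (2 * t) + (t + x), x})
      omega
    omega
  omega

lemma FB_card (t : ℕ) : (FB t).card ≤ 6 * t * t + t := by
  have h1 := card_Base (2 * t) (sf t) (sf t) (sf t)
  have h2 := FBx_card t
  have h3 := Finset.card_union_le (Base (2 * t) (sf t) (sf t) (sf t)) (FBx t)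
  unfold FB
  have h4 : 2 * t * (2 * t - 1) = 4 * t * t - 2 * t := by
    rw [Nat.mul_sub]; congr 1 <;> ring
  rw [h4] at h1
  have h5 : 2 * t ≤ 4 * t * t := by nlinarith [Nat.zero_le t, sq_nonneg (t : ℤ), Nat.le_mul_self t]
  have h6 : 2 * (Base (2 * t) (sf t) (sf t) (sf t)).card + 6 * t ≤ 12 * t * t := by
    have : 3 * (4 * t * t - 2 * t) + 6 * t = 12 * t * t := by
      rw [Nat.mul_sub]
      have h7 : 3 * (4 * t * t) = 12 * t * t := by ring
      have h8 : 3 * (2 * t) = 6 * t := by ring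
      rw [h7, h8]
      have : 6 * t ≤ 12 * t * t := by nlinarith
      omega
    omega
  nlinarith

lemma FBx_card3 (t : ℕ) : ∀ X ∈ FBx t, X.card ≤ 3 :=
  union_card3 (Img_card3 (fun _ => card_three _ _ _)) (union_card3 (Img_card3 (fun _ => card_three _ _ _))
    (union_card3 (Img_card3 (fun _ => card_three _ _ _)) (Img_card3 (fun _ => card_three _ _ _))))

lemma FB_card3 (t : ℕ) : ∀ X ∈ FB t, X.card ≤ 3 := union_card3 Base_card3 (FBx_card3 t)

lemma FB_b1 (t j a b : ℕ) (hj : j < t) (ha : a ∈ ({j, 2 * t + j, 2 * (2 * t) + j} : Finset ℕ))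
    (hb : b ∈ ({j, 2 * t + j, 2 * (2 * t) + j} : Finset ℕ)) : Cov (FB t) a b :=
  (cov_Img (j := j) (fun x => {x, 2 * t + x, 2 * (2 * t) + x}) hj ha hb).left.right

lemma FB_b2 (t j a b : ℕ) (hj : j < t) (ha : a ∈ ({3 * (2 * t), t + j, 2 * t + j} : Finset ℕ))
    (hb : b ∈ ({3 * (2 * t), t + j, 2 * t + j} : Finset ℕ)) : Cov (FB t) a b :=
  (cov_Img (j := j) (fun x => {3 * (2 * t), t + x, 2 * t + x}) hj ha hb).left.right.right

lemma FB_b3 (t j a b : ℕ) (hj : j < t) (ha : a ∈ ({3 * (2 * t), 2 * t + (t + j), 2 * (2 * t) + j} : Finset ℕ))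
    (hb : b ∈ ({3 * (2 * t), 2 * t + (t + j), 2 * (2 * t) + j} : Finset ℕ)) : Cov (FB t) a b :=
  (cov_Img (j := j) (fun x => {3 * (2 * t), 2 * t + (t + x), 2 * (2 * t) + x}) hj ha hb).left.right.right.right

lemma FB_b4 (t j a b : ℕ) (hj : j < t) (ha : a ∈ ({3 * (2 * t), 2 * (2 * t) + (t + j), j} : Finset ℕ))
    (hb : b ∈ ({3 * (2 * t), 2 * (2 * t) + (t + j), j} : Finset ℕ)) : Cov (FB t) a b :=
  (cov_Img (j := j) (fun x => {3 * (2 * t), 2 * (2 * t) + (t + x), x}) hj ha hb).right.right.right.right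

lemma FB_cov (t : ℕ) : ∀ a b, a < b → b < 3 * (2 * t) + 1 → Cov (FB t) a b := by
  intro a b hab hb
  by_cases h : b < 3 * (2 * t)
  · revert a b
    intro a b hab _ h
    apply Base_cov (sf_comm t) (sf_comm t) (sf_comm t) (ss_spec t) (ss_spec t) (ss_spec t) (FB t)
      subset_union_left _ _ _ a b hab h
    · intro x hx
      rw [sf_diag t x hx]
      split_ifs with hxt
      · exact FB_b1 t x _ _ hxt (by simp) (by simp)
      · obtain ⟨y, rfl⟩ : ∃ y, x = t + y := ⟨x - t, by omega⟩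
        exact FB_b2 t y _ _ (by omega) (by simp) (by simp)
    · intro x hx
      rw [sf_diag t x hx]
      split_ifs with hxt
      · exact FB_b1 t x _ _ hxt (by simp) (by simp)
      · obtain ⟨y, rfl⟩ : ∃ y, x = t + y := ⟨x - t, by omega⟩
        exact FB_b3 t y _ _ (by omega) (by simp) (by simp)
    · intro x hx
      rw [sf_diag t x hx]
      split_ifs with hxt
      · exact FB_b1 t x _ _ hxt (by simp) (by simp)
      · obtain ⟨y, rfl⟩ : ∃ y, x = t + y := ⟨x - t, by omega⟩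
        exact FB_b4 t y _ _ (by omega) (by simp) (by simp)
  · have hb' : b = 3 * (2 * t) := by omega
    subst hb'
    by_cases h0 : a < 2 * t
    · by_cases hat : a < t
      · exact FB_b4 t a _ _ hat (by simp) (by simp)
      · obtain ⟨y, rfl⟩ : ∃ y, a = t + y := ⟨a - t, by omega⟩
        exact FB_b2 t y _ _ (by omega) (by simp) (by simp)
    · by_cases h1 : a < 2 * (2 * t)
      · obtain ⟨x, rfl⟩ : ∃ x, a = 2 * t + x := ⟨a - 2 * t, by omega⟩
        by_cases hxt : x < t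
        · exact FB_b2 t x _ _ hxt (by simp) (by simp)
        · obtain ⟨y, rfl⟩ : ∃ y, x = t + y := ⟨x - t, by omega⟩
          exact FB_b3 t y _ _ (by omega) (by simp) (by simp)
      · obtain ⟨x, rfl⟩ : ∃ x, a = 2 * (2 * t) + x := ⟨a - 2 * (2 * t), by omega⟩
        by_cases hxt : x < t
        · exact FB_b3 t x _ _ hxt (by simp) (by simp)
        · obtain ⟨y, rfl⟩ : ∃ y, x = t + y := ⟨x - t, by omega⟩
          exact FB_b4 t y _ _ (by omega) (by simp) (by simp)

theorem caseB (t : ℕ) (ht : 1 ≤ t) : coverNum (6 * t + 1) 3 2 ≤ 6 * t * t + t := by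
  apply coverNum_le_of_nat (by omega) (FB t) (FB_card3 t) _ (FB_card t)
  intro a b hab hb
  exact FB_cov t a b hab (by omega)

/-! ### v = 6 t + 2 -/

def FG (t : ℕ) : Finset (Finset ℕ) :=
  FB t ∪ (Img (2 * t) (fun x => {3 * (2 * t) + 1, x, 2 * t + x}) ∪
    (Img t (fun j => {3 * (2 * t) + 1, 2 * (2 * t) + j, 2 * (2 * t) + (t + j)}) ∪
    Img 1 (fun _ => {3 * (2 * t) + 1, 3 * (2 * t), 0})))

theorem caseG (t : ℕ) (ht : 1 ≤ t) : coverNum (6 * t + 2) 3 2 ≤ 6 * t * t + 4 * t + 1 := by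
  apply coverNum_le_of_nat (by omega) (FG t)
  · exact union_card3 (FB_card3 t) (union_card3 (Img_card3 (fun _ => card_three _ _ _))
      (union_card3 (Img_card3 (fun _ => card_three _ _ _)) (Img_card3 (fun _ => card_three _ _ _))))
  · intro a b hab hb
    by_cases h : b < 3 * (2 * t) + 1
    · exact (FB_cov t a b hab h).left
    · have hb' : b = 3 * (2 * t) + 1 := by omega
      subst hb'
      by_cases h0 : a < 2 * t
      · exact (cov_Img (j := a) (fun x => {3 * (2 * t) + 1, x, 2 * t + x}) h0 (by simp) (by simp)).left.right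
      · by_cases h1 : a < 2 * (2 * t)
        · obtain ⟨x, rfl⟩ : ∃ x, a = 2 * t + x := ⟨a - 2 * t, by omega⟩
          exact (cov_Img (j := x) (fun x => {3 * (2 * t) + 1, x, 2 * t + x}) (by omega) (by simp) (by simp)).left.right
        · by_cases h2 : a < 3 * (2 * t)
          · obtain ⟨x, rfl⟩ : ∃ x, a = 2 * (2 * t) + x := ⟨a - 2 * (2 * t), by omega⟩
            by_cases hx : x < t
            · exact (cov_Img (j := x) (fun j => {3 * (2 * t) + 1, 2 * (2 * t) + j, 2 * (2 * t) + (t + j)})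
                hx (by simp) (by simp)).left.right.right
            · obtain ⟨y, rfl⟩ : ∃ y, x = t + y := ⟨x - t, by omega⟩
              exact (cov_Img (j := y) (fun j => {3 * (2 * t) + 1, 2 * (2 * t) + j, 2 * (2 * t) + (t + j)})
                (by omega) (by simp) (by simp)).left.right.right
          · have ha : a = 3 * (2 * t) := by omega
            subst ha
            exact (cov_Img (j := 0) (fun _ => {3 * (2 * t) + 1, 3 * (2 * t), 0}) (by omega)
              (by simp) (by simp)).right.right.right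
  · have h1 := FB_card t
    have h2 := card_Img (2 * t) (fun x => {3 * (2 * t) + 1, x, 2 * t + x})
    have h3 := card_Img t (fun j => {3 * (2 * t) + 1, 2 * (2 * t) + j, 2 * (2 * t) + (t + j)})
    have h3' := card_Img 1 (fun _ => {3 * (2 * t) + 1, 3 * (2 * t), 0})
    have h6 : (Img t (fun j => {3 * (2 * t) + 1, 2 * (2 * t) + j, 2 * (2 * t) + (t + j)}) ∪
      Img 1 (fun _ => {3 * (2 * t) + 1, 3 * (2 * t), 0})).card ≤ t + 1 :=
      (Finset.card_union_le _ _).trans (by omega)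
    have h5 : (Img (2 * t) (fun x => {3 * (2 * t) + 1, x, 2 * t + x}) ∪
      (Img t (fun j => {3 * (2 * t) + 1, 2 * (2 * t) + j, 2 * (2 * t) + (t + j)}) ∪
      Img 1 (fun _ => {3 * (2 * t) + 1, 3 * (2 * t), 0}))).card ≤ 2 * t + (t + 1) :=
      (Finset.card_union_le _ _).trans (by omega)
    have h4 : (FG t).card ≤ (FB t).card + (2 * t + (t + 1)) := by
      unfold FG
      exact (Finset.card_union_le _ _).trans (by omega)
    omega

end Pool.Agent.Lib.MP_9be8d1_co
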