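import Pool.Agent.Lib.MP_9be8d1_co.Triples

/-!
Coverings for `v = 6 t + 5` and `v = 6 t + 6`, and the final formula for `r = 3`.
-/

namespace Pool.Agent.Lib.MP_9be8d1_co

open Finset

/-- six blocks for each pair `x = j + 1`, `x' = 2 t - j` -/
def FCx (t : ℕ) : Finset (Finset ℕ) :=
  Img t (fun j => {3 * (2 * t + 1), j + 1, (2 * t + 1) + (j + 1)}) ∪
  (Img t (fun j => {3 * (2 * t + 1) + 1, (2 * t + 1) + (j + 1), 2 * (2 * t + 1) + (j + 1)}) ∪
  (Img t (fun j => {3 * (2 * t + 1), 2 * (2 * t + 1) + (j + 1), 2 * t - j}) ∪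
  (Img t (fun j => {3 * (2 * t + 1) + 1, 2 * t - j, (2 * t + 1) + (2 * t - j)}) ∪
  (Img t (fun j => {3 * (2 * t + 1), (2 * t + 1) + (2 * t - j), 2 * (2 * t + 1) + (2 * t - j)}) ∪
   Img t (fun j => {3 * (2 * t + 1) + 1, 2 * (2 * t + 1) + (2 * t - j), j + 1})))))

lemma cu {A B : Finset (Finset ℕ)} {a b : ℕ} (hA : A.card ≤ a) (hB : B.card ≤ b) :
    (A ∪ B).card ≤ a + b := (Finset.card_union_le A B).trans (Nat.add_le_add hA hB)

lemma FCx_card (t : ℕ) : (FCx t).card ≤ 6 * t := by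
  have h := cu (card_Img t (fun j => {3 * (2 * t + 1), j + 1, (2 * t + 1) + (j + 1)}))
    (cu (card_Img t (fun j => {3 * (2 * t + 1) + 1, (2 * t + 1) + (j + 1), 2 * (2 * t + 1) + (j + 1)}))
    (cu (card_Img t (fun j => {3 * (2 * t + 1), 2 * (2 * t + 1) + (j + 1), 2 * t - j}))
    (cu (card_Img t (fun j => {3 * (2 * t + 1) + 1, 2 * t - j, (2 * t + 1) + (2 * t - j)}))
    (cu (card_Img t (fun j => {3 * (2 * t + 1), (2 * t + 1) + (2 * t - j), 2 * (2 * t + 1) + (2 * t - j)}))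
    (card_Img t (fun j => {3 * (2 * t + 1) + 1, 2 * (2 * t + 1) + (2 * t - j), j + 1}))))))
  refine le_trans h ?_
  omega

lemma FCx_card3 (t : ℕ) : ∀ X ∈ FCx t, X.card ≤ 3 :=
  union_card3 (Img_card3 (fun _ => card_three _ _ _)) (union_card3 (Img_card3 (fun _ => card_three _ _ _))
    (union_card3 (Img_card3 (fun _ => card_three _ _ _)) (union_card3 (Img_card3 (fun _ => card_three _ _ _))
      (union_card3 (Img_card3 (fun _ => card_three _ _ _)) (Img_card3 (fun _ => card_three _ _ _))))))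

lemma FC1 (t j a b : ℕ) (hj : j < t) (ha : a ∈ ({3 * (2 * t + 1), j + 1, (2 * t + 1) + (j + 1)} : Finset ℕ))
    (hb : b ∈ ({3 * (2 * t + 1), j + 1, (2 * t + 1) + (j + 1)} : Finset ℕ)) : Cov (FCx t) a b :=
  (cov_Img (j := j) (fun j => {3 * (2 * t + 1), j + 1, (2 * t + 1) + (j + 1)}) hj ha hb).left

lemma FC2 (t j a b : ℕ) (hj : j < t)
    (ha : a ∈ ({3 * (2 * t + 1) + 1, (2 * t + 1) + (j + 1), 2 * (2 * t + 1) + (j + 1)} : Finset ℕ))
    (hb : b ∈ ({3 * (2 * t + 1) + 1, (2 * t + 1) + (j + 1), 2 * (2 * t + 1) + (j + 1)} : Finset ℕ)) :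
    Cov (FCx t) a b :=
  (cov_Img (j := j) (fun j => {3 * (2 * t + 1) + 1, (2 * t + 1) + (j + 1), 2 * (2 * t + 1) + (j + 1)}) hj ha hb).left.right

lemma FC3 (t j a b : ℕ) (hj : j < t)
    (ha : a ∈ ({3 * (2 * t + 1), 2 * (2 * t + 1) + (j + 1), 2 * t - j} : Finset ℕ))
    (hb : b ∈ ({3 * (2 * t + 1), 2 * (2 * t + 1) + (j + 1), 2 * t - j} : Finset ℕ)) :
    Cov (FCx t) a b :=
  (cov_Img (j := j) (fun j => {3 * (2 * t + 1), 2 * (2 * t + 1) + (j + 1), 2 * t - j}) hj ha hb).left.right.right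

lemma FC4 (t j a b : ℕ) (hj : j < t)
    (ha : a ∈ ({3 * (2 * t + 1) + 1, 2 * t - j, (2 * t + 1) + (2 * t - j)} : Finset ℕ))
    (hb : b ∈ ({3 * (2 * t + 1) + 1, 2 * t - j, (2 * t + 1) + (2 * t - j)} : Finset ℕ)) :
    Cov (FCx t) a b :=
  (cov_Img (j := j) (fun j => {3 * (2 * t + 1) + 1, 2 * t - j, (2 * t + 1) + (2 * t - j)}) hj ha hb).left.right.right.right

lemma FC5 (t j a b : ℕ) (hj : j < t)
    (ha : a ∈ ({3 * (2 * t + 1), (2 * t + 1) + (2 * t - j), 2 * (2 * t + 1) + (2 * t - j)} : Finset ℕ))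
    (hb : b ∈ ({3 * (2 * t + 1), (2 * t + 1) + (2 * t - j), 2 * (2 * t + 1) + (2 * t - j)} : Finset ℕ)) :
    Cov (FCx t) a b :=
  (cov_Img (j := j) (fun j => {3 * (2 * t + 1), (2 * t + 1) + (2 * t - j), 2 * (2 * t + 1) + (2 * t - j)}) hj ha hb).left.right.right.right.right

lemma FC6 (t j a b : ℕ) (hj : j < t)
    (ha : a ∈ ({3 * (2 * t + 1) + 1, 2 * (2 * t + 1) + (2 * t - j), j + 1} : Finset ℕ))
    (hb : b ∈ ({3 * (2 * t + 1) + 1, 2 * (2 * t + 1) + (2 * t - j), j + 1} : Finset ℕ)) :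
    Cov (FCx t) a b :=
  (cov_Img (j := j) (fun j => {3 * (2 * t + 1) + 1, 2 * (2 * t + 1) + (2 * t - j), j + 1}) hj ha hb).right.right.right.right.right

lemma ng_add (t j : ℕ) (hj : j < t) : ng t (j + 1) = 2 * t - j := by
  unfold ng; rw [if_neg (by omega)]; omega

lemma ng_sub (t j : ℕ) (hj : j < t) : ng t (2 * t - j) = j + 1 := by
  unfold ng; rw [if_neg (by omega)]; omega

/-- The pairs covered by `FCx` and the base. -/
def FP (t : ℕ) : Finset (Finset ℕ) :=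
  Base (2 * t + 1) (hf t) (hf t) (fun x y => ng t (hf t x y)) ∪ FCx t

lemma FP_card (t : ℕ) : (FP t).card ≤ 6 * t * t + 9 * t := by
  have h1 := card_Base (2 * t + 1) (hf t) (hf t) (fun x y => ng t (hf t x y))
  have h2 := FCx_card t
  have h3 := Finset.card_union_le (Base (2 * t + 1) (hf t) (hf t) (fun x y => ng t (hf t x y))) (FCx t)
  unfold FP
  have h4 : 2 * t + 1 - 1 = 2 * t := by omega
  rw [h4] at h1
  nlinarith

lemma FP_card3 (t : ℕ) : ∀ X ∈ FP t, X.card ≤ 3 := union_card3 Base_card3 (FCx_card3 t)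

/-- cases for a number below `2 t + 1` -/
lemma three_cases (t x : ℕ) (hx : x < 2 * t + 1) :
    x = 0 ∨ (∃ j, j < t ∧ x = j + 1) ∨ (∃ j, j < t ∧ x = 2 * t - j) := by
  by_cases h0 : x = 0
  · exact Or.inl h0
  · by_cases h1 : x ≤ t
    · exact Or.inr (Or.inl ⟨x - 1, by omega, by omega⟩)
    · exact Or.inr (Or.inr ⟨2 * t - x, by omega, by omega⟩)

/-- pairs with an infinite point and pairs of finite points, up to the special 5-set -/
lemma FP_inf (t a : ℕ) (ha : a < 3 * (2 * t + 1)) (h0 : a ≠ 0) (h1 : a ≠ 2 * t + 1)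
    (h2 : a ≠ 2 * (2 * t + 1)) :
    Cov (FP t) a (3 * (2 * t + 1)) ∧ Cov (FP t) a (3 * (2 * t + 1) + 1) := by
  by_cases hl0 : a < 2 * t + 1
  · rcases three_cases t a hl0 with h | ⟨j, hj, rfl⟩ | ⟨j, hj, rfl⟩
    · exact absurd h h0
    · exact ⟨(FC1 t j _ _ hj (by simp) (by simp)).right, (FC6 t j _ _ hj (by simp) (by simp)).right⟩
    · exact ⟨(FC3 t j _ _ hj (by simp) (by simp)).right, (FC4 t j _ _ hj (by simp) (by simp)).right⟩
  · by_cases hl1 : a < 2 * (2 * t + 1)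
    · obtain ⟨x, rfl⟩ : ∃ x, a = (2 * t + 1) + x := ⟨a - (2 * t + 1), by omega⟩
      rcases three_cases t x (by omega) with h | ⟨j, hj, rfl⟩ | ⟨j, hj, rfl⟩
      · exact absurd (by rw [h]) h1
      · exact ⟨(FC1 t j _ _ hj (by simp) (by simp)).right, (FC2 t j _ _ hj (by simp) (by simp)).right⟩
      · exact ⟨(FC5 t j _ _ hj (by simp) (by simp)).right, (FC4 t j _ _ hj (by simp) (by simp)).right⟩
    · obtain ⟨x, rfl⟩ : ∃ x, a = 2 * (2 * t + 1) + x := ⟨a - 2 * (2 * t + 1), by omega⟩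
      rcases three_cases t x (by omega) with h | ⟨j, hj, rfl⟩ | ⟨j, hj, rfl⟩
      · exact absurd (by rw [h, Nat.add_zero]) h2
      · exact ⟨(FC3 t j _ _ hj (by simp) (by simp)).right, (FC2 t j _ _ hj (by simp) (by simp)).right⟩
      · exact ⟨(FC5 t j _ _ hj (by simp) (by simp)).right, (FC6 t j _ _ hj (by simp) (by simp)).right⟩

lemma FP_fin (t : ℕ) (B : Finset (Finset ℕ)) (hB : FP t ⊆ B) (h01 : Cov B 0 (2 * t + 1))
    (h12 : Cov B (2 * t + 1) (2 * (2 * t + 1))) (h20 : Cov B (2 * (2 * t + 1)) 0) :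
    ∀ a b, a < b → b < 3 * (2 * t + 1) → Cov B a b := by
  apply Base_cov (g0 := hs t) (g1 := hs t) (g2 := fun x z => hs t x (ng t z))
    (hf_comm t) (hf_comm t) (fun x y => by show ng t (hf t x y) = ng t (hf t y x); rw [hf_comm t x y]) (hs_spec t) (hs_spec t)
  · intro x z hx hz
    obtain ⟨h1, h2⟩ := ng_spec t z hz
    obtain ⟨h3, h4⟩ := hs_spec t x (ng t z) hx h1
    exact ⟨h3, by show ng t (hf t x (hs t x (ng t z))) = z; rw [h4, h2]⟩
  · exact subset_union_left.trans hB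
  · intro x hx
    rw [hf_diag]
    rcases three_cases t x hx with rfl | ⟨j, hj, rfl⟩ | ⟨j, hj, rfl⟩
    · simpa using h01
    · exact (FC1 t j _ _ hj (by simp) (by simp)).right.mono hB
    · exact (FC4 t j _ _ hj (by simp) (by simp)).right.mono hB
  · intro x hx
    rw [hf_diag]
    rcases three_cases t x hx with rfl | ⟨j, hj, rfl⟩ | ⟨j, hj, rfl⟩
    · simpa using h12
    · exact (FC2 t j _ _ hj (by simp) (by simp)).right.mono hB
    · exact (FC5 t j _ _ hj (by simp) (by simp)).right.mono hB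
  · intro x hx
    simp only [hf_diag]
    rcases three_cases t x hx with rfl | ⟨j, hj, rfl⟩ | ⟨j, hj, rfl⟩
    · have : ng t 0 = 0 := by simp [ng]
      rw [this]; simpa using h20
    · rw [ng_add t j hj]
      exact (FC3 t j _ _ hj (by simp) (by simp)).right.mono hB
    · rw [ng_sub t j hj]
      exact (FC6 t j _ _ hj (by simp) (by simp)).right.mono hB

/-! ### v = 6 t + 5 -/

def F5 (t : ℕ) : Finset (Finset ℕ) :=
  {{0, 2 * t + 1, 2 * (2 * t + 1)}, {0, 3 * (2 * t + 1), 3 * (2 * t + 1) + 1},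
    {2 * t + 1, 3 * (2 * t + 1), 3 * (2 * t + 1) + 1}, {2 * (2 * t + 1), 3 * (2 * t + 1), 3 * (2 * t + 1) + 1}}

lemma F5_card (t : ℕ) : (F5 t).card ≤ 4 := Finset.card_le_four

lemma F5_card3 (t : ℕ) : ∀ X ∈ F5 t, X.card ≤ 3 := by
  intro X hX
  simp only [F5, mem_insert, mem_singleton] at hX
  rcases hX with rfl | rfl | rfl | rfl <;> exact card_three _ _ _

theorem caseC (t : ℕ) : coverNum (6 * t + 5) 3 2 ≤ 6 * t * t + 9 * t + 4 := by
  apply coverNum_le_of_nat (by omega) (FP t ∪ F5 t)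
  · exact union_card3 (FP_card3 t) (F5_card3 t)
  · intro a b hab hb
    have m1 : ({0, 2 * t + 1, 2 * (2 * t + 1)} : Finset ℕ) ∈ F5 t := by simp [F5]
    have m2 : ({0, 3 * (2 * t + 1), 3 * (2 * t + 1) + 1} : Finset ℕ) ∈ F5 t := by simp [F5]
    have m3 : ({2 * t + 1, 3 * (2 * t + 1), 3 * (2 * t + 1) + 1} : Finset ℕ) ∈ F5 t := by simp [F5]
    have m4 : ({2 * (2 * t + 1), 3 * (2 * t + 1), 3 * (2 * t + 1) + 1} : Finset ℕ) ∈ F5 t := by simp [F5]
    by_cases h : b < 3 * (2 * t + 1)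
    · apply FP_fin t _ subset_union_left _ _ _ a b hab h
      · exact Cov.right ⟨_, m1, by simp, by simp⟩
      · exact Cov.right ⟨_, m1, by simp, by simp⟩
      · exact Cov.right ⟨_, m1, by simp, by simp⟩
    · have hb' : b = 3 * (2 * t + 1) ∨ b = 3 * (2 * t + 1) + 1 := by omega
      by_cases ha : a < 3 * (2 * t + 1)
      · by_cases a0 : a = 0
        · subst a0
          rcases hb' with rfl | rfl <;> exact Cov.right ⟨_, m2, by simp, by simp⟩
        · by_cases a1 : a = 2 * t + 1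
          · subst a1
            rcases hb' with rfl | rfl <;> exact Cov.right ⟨_, m3, by simp, by simp⟩
          · by_cases a2 : a = 2 * (2 * t + 1)
            · subst a2
              rcases hb' with rfl | rfl <;> exact Cov.right ⟨_, m4, by simp, by simp⟩
            · have := FP_inf t a ha a0 a1 a2
              rcases hb' with rfl | rfl
              · exact this.1.left
              · exact this.2.left
      · have ha' : a = 3 * (2 * t + 1) := by omega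
        have hb'' : b = 3 * (2 * t + 1) + 1 := by omega
        subst ha' hb''
        exact Cov.right ⟨_, m2, by simp, by simp⟩
  · have h1 := FP_card t
    have h2 := F5_card t
    have h3 := Finset.card_union_le (FP t) (F5 t)
    omega

/-! ### v = 6 t + 6 -/

def F6 (t : ℕ) : Finset (Finset ℕ) :=
  {{0, 2 * t + 1, 2 * (2 * t + 1)}, {0, 2 * t + 1, 3 * (2 * t + 1)}} ∪
  ({{0, 3 * (2 * t + 1) + 1, 3 * (2 * t + 1) + 2}, {2 * t + 1, 3 * (2 * t + 1) + 1, 3 * (2 * t + 1) + 2}} ∪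
  {{2 * (2 * t + 1), 3 * (2 * t + 1), 3 * (2 * t + 1) + 1}, {2 * (2 * t + 1), 3 * (2 * t + 1), 3 * (2 * t + 1) + 2}})

lemma F6_card (t : ℕ) : (F6 t).card ≤ 6 := by
  unfold F6
  refine (Finset.card_union_le _ _).trans ?_
  have h1 : ({{0, 2 * t + 1, 2 * (2 * t + 1)}, {0, 2 * t + 1, 3 * (2 * t + 1)}} : Finset (Finset ℕ)).card ≤ 2 :=
    Finset.card_le_two
  have h2 := Finset.card_union_le
    ({{0, 3 * (2 * t + 1) + 1, 3 * (2 * t + 1) + 2}, {2 * t + 1, 3 * (2 * t + 1) + 1, 3 * (2 * t + 1) + 2}} : Finset (Finset ℕ))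
    ({{2 * (2 * t + 1), 3 * (2 * t + 1), 3 * (2 * t + 1) + 1}, {2 * (2 * t + 1), 3 * (2 * t + 1), 3 * (2 * t + 1) + 2}} : Finset (Finset ℕ))
  have h3 : ({{0, 3 * (2 * t + 1) + 1, 3 * (2 * t + 1) + 2}, {2 * t + 1, 3 * (2 * t + 1) + 1, 3 * (2 * t + 1) + 2}} : Finset (Finset ℕ)).card ≤ 2 :=
    Finset.card_le_two
  have h4 : ({{2 * (2 * t + 1), 3 * (2 * t + 1), 3 * (2 * t + 1) + 1}, {2 * (2 * t + 1), 3 * (2 * t + 1), 3 * (2 * t + 1) + 2}} : Finset (Finset ℕ)).card ≤ 2 :=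
    Finset.card_le_two
  omega

lemma F6_card3 (t : ℕ) : ∀ X ∈ F6 t, X.card ≤ 3 := by
  intro X hX
  simp only [F6, mem_union, mem_insert, mem_singleton] at hX
  rcases hX with (rfl | rfl) | (rfl | rfl) | (rfl | rfl) <;> exact card_three _ _ _

/-- the last point `3 q + 2` with the points outside the special 6-set -/
def F7 (t : ℕ) : Finset (Finset ℕ) :=
  Img t (fun j => {3 * (2 * t + 1) + 2, j + 1, 2 * t - j}) ∪
  (Img t (fun j => {3 * (2 * t + 1) + 2, (2 * t + 1) + (j + 1), (2 * t + 1) + (2 * t - j)}) ∪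
   Img t (fun j => {3 * (2 * t + 1) + 2, 2 * (2 * t + 1) + (j + 1), 2 * (2 * t + 1) + (2 * t - j)}))

lemma F7_card (t : ℕ) : (F7 t).card ≤ 3 * t := by
  unfold F7
  have h1 := card_Img t (fun j => {3 * (2 * t + 1) + 2, j + 1, 2 * t - j})
  have h2 := card_Img t (fun j => {3 * (2 * t + 1) + 2, (2 * t + 1) + (j + 1), (2 * t + 1) + (2 * t - j)})
  have h3 := card_Img t (fun j => {3 * (2 * t + 1) + 2, 2 * (2 * t + 1) + (j + 1), 2 * (2 * t + 1) + (2 * t - j)})
  refine (Finset.card_union_le _ _).trans ?_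
  have := Finset.card_union_le
    (Img t (fun j => {3 * (2 * t + 1) + 2, (2 * t + 1) + (j + 1), (2 * t + 1) + (2 * t - j)}))
    (Img t (fun j => {3 * (2 * t + 1) + 2, 2 * (2 * t + 1) + (j + 1), 2 * (2 * t + 1) + (2 * t - j)}))
  omega

lemma F7_card3 (t : ℕ) : ∀ X ∈ F7 t, X.card ≤ 3 :=
  union_card3 (Img_card3 (fun _ => card_three _ _ _)) (union_card3 (Img_card3 (fun _ => card_three _ _ _))
    (Img_card3 (fun _ => card_three _ _ _)))

lemma F7_cov (t a : ℕ) (ha : a < 3 * (2 * t + 1)) (h0 : a ≠ 0) (h1 : a ≠ 2 * t + 1)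
    (h2 : a ≠ 2 * (2 * t + 1)) : Cov (F7 t) a (3 * (2 * t + 1) + 2) := by
  by_cases hl0 : a < 2 * t + 1
  · rcases three_cases t a hl0 with h | ⟨j, hj, rfl⟩ | ⟨j, hj, rfl⟩
    · exact absurd h h0
    · exact (cov_Img (j := j) (fun j => {3 * (2 * t + 1) + 2, j + 1, 2 * t - j}) hj (by simp) (by simp)).left
    · exact (cov_Img (j := j) (fun j => {3 * (2 * t + 1) + 2, j + 1, 2 * t - j}) hj (by simp) (by simp)).left
  · by_cases hl1 : a < 2 * (2 * t + 1)
    · obtain ⟨x, rfl⟩ : ∃ x, a = (2 * t + 1) + x := ⟨a - (2 * t + 1), by omega⟩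
      rcases three_cases t x (by omega) with h | ⟨j, hj, rfl⟩ | ⟨j, hj, rfl⟩
      · exact absurd (by rw [h]) h1
      · exact (cov_Img (j := j) (fun j => {3 * (2 * t + 1) + 2, (2 * t + 1) + (j + 1), (2 * t + 1) + (2 * t - j)})
          hj (by simp) (by simp)).left.right
      · exact (cov_Img (j := j) (fun j => {3 * (2 * t + 1) + 2, (2 * t + 1) + (j + 1), (2 * t + 1) + (2 * t - j)})
          hj (by simp) (by simp)).left.right
    · obtain ⟨x, rfl⟩ : ∃ x, a = 2 * (2 * t + 1) + x := ⟨a - 2 * (2 * t + 1), by omega⟩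
      rcases three_cases t x (by omega) with h | ⟨j, hj, rfl⟩ | ⟨j, hj, rfl⟩
      · exact absurd (by rw [h, Nat.add_zero]) h2
      · exact (cov_Img (j := j) (fun j => {3 * (2 * t + 1) + 2, 2 * (2 * t + 1) + (j + 1), 2 * (2 * t + 1) + (2 * t - j)})
          hj (by simp) (by simp)).right.right
      · exact (cov_Img (j := j) (fun j => {3 * (2 * t + 1) + 2, 2 * (2 * t + 1) + (j + 1), 2 * (2 * t + 1) + (2 * t - j)})
          hj (by simp) (by simp)).right.right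

theorem caseD (t : ℕ) : coverNum (6 * t + 6) 3 2 ≤ 6 * t * t + 12 * t + 6 := by
  apply coverNum_le_of_nat (by omega) (FP t ∪ (F6 t ∪ F7 t))
  · exact union_card3 (FP_card3 t) (union_card3 (F6_card3 t) (F7_card3 t))
  · intro a b hab hb
    have m1 : ({0, 2 * t + 1, 2 * (2 * t + 1)} : Finset ℕ) ∈ F6 t := by simp [F6]
    have m2 : ({0, 2 * t + 1, 3 * (2 * t + 1)} : Finset ℕ) ∈ F6 t := by simp [F6]
    have m3 : ({0, 3 * (2 * t + 1) + 1, 3 * (2 * t + 1) + 2} : Finset ℕ) ∈ F6 t := by simp [F6]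
    have m4 : ({2 * t + 1, 3 * (2 * t + 1) + 1, 3 * (2 * t + 1) + 2} : Finset ℕ) ∈ F6 t := by simp [F6]
    have m5 : ({2 * (2 * t + 1), 3 * (2 * t + 1), 3 * (2 * t + 1) + 1} : Finset ℕ) ∈ F6 t := by simp [F6]
    have m6 : ({2 * (2 * t + 1), 3 * (2 * t + 1), 3 * (2 * t + 1) + 2} : Finset ℕ) ∈ F6 t := by simp [F6]
    have lft : ∀ {a b : ℕ}, (∃ X ∈ F6 t, a ∈ X ∧ b ∈ X) → Cov (FP t ∪ (F6 t ∪ F7 t)) a b := by
      intro a b h
      exact (Cov.left (B := F7 t) h).right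
    by_cases h : b < 3 * (2 * t + 1)
    · apply FP_fin t _ subset_union_left _ _ _ a b hab h
      · exact lft ⟨_, m1, by simp, by simp⟩
      · exact lft ⟨_, m1, by simp, by simp⟩
      · exact lft ⟨_, m1, by simp, by simp⟩
    · by_cases ha : a < 3 * (2 * t + 1)
      · have hb' : b = 3 * (2 * t + 1) ∨ b = 3 * (2 * t + 1) + 1 ∨ b = 3 * (2 * t + 1) + 2 := by omega
        by_cases a0 : a = 0
        · subst a0
          rcases hb' with rfl | rfl | rfl
          · exact lft ⟨_, m2, by simp, by simp⟩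
          · exact lft ⟨_, m3, by simp, by simp⟩
          · exact lft ⟨_, m3, by simp, by simp⟩
        · by_cases a1 : a = 2 * t + 1
          · subst a1
            rcases hb' with rfl | rfl | rfl
            · exact lft ⟨_, m2, by simp, by simp⟩
            · exact lft ⟨_, m4, by simp, by simp⟩
            · exact lft ⟨_, m4, by simp, by simp⟩
          · by_cases a2 : a = 2 * (2 * t + 1)
            · subst a2
              rcases hb' with rfl | rfl | rfl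
              · exact lft ⟨_, m5, by simp, by simp⟩
              · exact lft ⟨_, m5, by simp, by simp⟩
              · exact lft ⟨_, m6, by simp, by simp⟩
            · have := FP_inf t a ha a0 a1 a2
              rcases hb' with rfl | rfl | rfl
              · exact this.1.left
              · exact this.2.left
              · exact (F7_cov t a ha a0 a1 a2).right.right
      · have hcase : (a = 3 * (2 * t + 1) ∧ b = 3 * (2 * t + 1) + 1) ∨
            (a = 3 * (2 * t + 1) ∧ b = 3 * (2 * t + 1) + 2) ∨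
            (a = 3 * (2 * t + 1) + 1 ∧ b = 3 * (2 * t + 1) + 2) := by omega
        rcases hcase with ⟨rfl, rfl⟩ | ⟨rfl, rfl⟩ | ⟨rfl, rfl⟩
        · exact lft ⟨_, m5, by simp, by simp⟩
        · exact lft ⟨_, m6, by simp, by simp⟩
        · exact lft ⟨_, m3, by simp, by simp⟩
  · have h1 := FP_card t
    have h2 := F6_card t
    have h3 := F7_card t
    have h4 := Finset.card_union_le (F6 t) (F7 t)
    have h5 := Finset.card_union_le (FP t) (F6 t ∪ F7 t)
    omega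

/-! ### the case `r = 3` -/

lemma choose_facts (s : ℕ) : 6 * (s + 3).choose 3 = (s + 3) * ((s + 2) * (s + 1)) ∧
    2 * (s + 2).choose 2 = (s + 2) * (s + 1) := by
  have h2 : 2 * (s + 2).choose 2 = (s + 2) * (s + 1) := by
    rw [Nat.choose_two_right]
    have := Nat.mul_div_cancel' (show 2 ∣ (s + 2) * (s + 2 - 1) from (Nat.even_mul_pred_self (s + 2)).two_dvd)
    rw [this]
    congr 1
  refine ⟨?_, h2⟩
  have h3 : (s + 2 + 1) * (s + 2).choose 2 = (s + 2 + 1).choose (2 + 1) * (2 + 1) :=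
    Nat.add_one_mul_choose_eq (s + 2) 2
  have h4 : (s + 2 + 1).choose (2 + 1) = (s + 3).choose 3 := rfl
  rw [h4] at h3
  calc 6 * (s + 3).choose 3 = 2 * ((s + 3).choose 3 * (2 + 1)) := by ring
    _ = 2 * ((s + 2 + 1) * (s + 2).choose 2) := by rw [h3]
    _ = (s + 3) * (2 * (s + 2).choose 2) := by ring
    _ = (s + 3) * ((s + 2) * (s + 1)) := by rw [h2]

/-- from `3 |E| ≤ (s+3) g_s` to the wanted bound -/
lemma three_upper {s n : ℕ} (E : Finset (Finset (Fin n))) (hE : ∀ e ∈ E, e.card = 3) (hφ : phi E ≤ s) :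
    3 * E.card ≤ (s + 3) * (s * (s + 2) / 2) := by
  have h := uniform_bound (r := 3) (by omega) E hE ((phi_le_iff E s).mp hφ)
  obtain ⟨h1, h2⟩ := choose_facts s
  have hpos : 0 < (s + 2).choose 2 := Nat.choose_pos (by omega)
  have h3 : 3 * (s + 3).choose 3 = (s + 3) * (s + 2).choose 2 := by
    have : 2 * (3 * (s + 3).choose 3) = 2 * ((s + 3) * (s + 2).choose 2) := by
      calc 2 * (3 * (s + 3).choose 3) = 6 * (s + 3).choose 3 := by ring
        _ = (s + 3) * ((s + 2) * (s + 1)) := h1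
        _ = 2 * ((s + 3) * (s + 2).choose 2) := by rw [← h2]; ring
    omega
  have h4 : (s + 2).choose 2 * (3 * E.card) ≤ (s + 2).choose 2 * ((s + 3) * (s * (s + 2) / 2)) := by
    calc (s + 2).choose 2 * (3 * E.card) = 3 * ((s + 2).choose 2 * E.card) := by ring
      _ ≤ 3 * ((s + 3).choose 3 * (s * (s + 2) / 2)) := Nat.mul_le_mul_left _ h
      _ = (3 * (s + 3).choose 3) * (s * (s + 2) / 2) := by ring
      _ = (s + 2).choose 2 * ((s + 3) * (s * (s + 2) / 2)) := by rw [h3]; ring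
  exact Nat.le_of_mul_le_mul_left h4 hpos

/-- arithmetic: number of triples needed -/
lemma three_arith (s m k : ℕ) (hm : ∃ t : ℕ,
    (s = 6 * t ∧ m = (2 * t + 1) * (3 * t + 1)) ∨ (s = 6 * t + 1 ∧ m = 6 * t * t + 8 * t + 3) ∨
    (s = 6 * t + 2 ∧ m = 6 * t * t + 9 * t + 4) ∨ (s = 6 * t + 3 ∧ m = 6 * t * t + 12 * t + 6) ∨
    (s = 6 * t + 4 ∧ m = 6 * (t + 1) * (t + 1) + (t + 1)) ∨
    (s = 6 * t + 5 ∧ m = 6 * (t + 1) * (t + 1) + 4 * (t + 1) + 1))
    (hk : 3 * k ≤ (s + 3) * (s * (s + 2) / 2)) : k + m ≤ (s + 3).choose 3 := by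
  obtain ⟨h1, -⟩ := choose_facts s
  obtain ⟨t, hm⟩ := hm
  have hg : 2 * (s * (s + 2) / 2) + (s * (s + 2)) % 2 = s * (s + 2) := by omega
  rcases hm with ⟨rfl, rfl⟩ | ⟨rfl, rfl⟩ | ⟨rfl, rfl⟩ | ⟨rfl, rfl⟩ | ⟨rfl, rfl⟩ | ⟨rfl, rfl⟩
  · have e : 6 * t * (6 * t + 2) / 2 = 6 * t * (3 * t + 1) := by
      have : 6 * t * (6 * t + 2) = 2 * (6 * t * (3 * t + 1)) := by ring
      rw [this]; exact Nat.mul_div_cancel_left _ (by norm_num)
    rw [e] at hk
    nlinarith
  · have e : (6 * t + 1) * (6 * t + 1 + 2) / 2 = 18 * t * t + 12 * t + 1 := by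
      have : (6 * t + 1) * (6 * t + 1 + 2) = 1 + 2 * (18 * t * t + 12 * t + 1) := by ring
      rw [this]; omega
    rw [e] at hk
    have h6 : 6 * (k + (6 * t * t + 8 * t + 3)) < 6 * (6 * t + 1 + 3).choose 3 + 6 := by nlinarith
    omega
  · have e : (6 * t + 2) * (6 * t + 2 + 2) / 2 = (3 * t + 1) * (6 * t + 4) := by
      have : (6 * t + 2) * (6 * t + 2 + 2) = 2 * ((3 * t + 1) * (6 * t + 4)) := by ring
      rw [this]; exact Nat.mul_div_cancel_left _ (by norm_num)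
    rw [e] at hk
    have h6 : 6 * (k + (6 * t * t + 9 * t + 4)) < 6 * (6 * t + 2 + 3).choose 3 + 6 := by nlinarith
    omega
  · have e : (6 * t + 3) * (6 * t + 3 + 2) / 2 = 18 * t * t + 24 * t + 7 := by
      have : (6 * t + 3) * (6 * t + 3 + 2) = 1 + 2 * (18 * t * t + 24 * t + 7) := by ring
      rw [this]; omega
    rw [e] at hk
    have h6 : 6 * (k + (6 * t * t + 12 * t + 6)) < 6 * (6 * t + 3 + 3).choose 3 + 6 := by nlinarith
    omega
  · have e : (6 * t + 4) * (6 * t + 4 + 2) / 2 = (3 * t + 2) * (6 * t + 6) := by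
      have : (6 * t + 4) * (6 * t + 4 + 2) = 2 * ((3 * t + 2) * (6 * t + 6)) := by ring
      rw [this]; exact Nat.mul_div_cancel_left _ (by norm_num)
    rw [e] at hk
    have h6 : 6 * (k + (6 * (t + 1) * (t + 1) + (t + 1))) < 6 * (6 * t + 4 + 3).choose 3 + 6 := by nlinarith
    omega
  · have e : (6 * t + 5) * (6 * t + 5 + 2) / 2 = 18 * t * t + 36 * t + 17 := by
      have : (6 * t + 5) * (6 * t + 5 + 2) = 1 + 2 * (18 * t * t + 36 * t + 17) := by ring
      rw [this]; omega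
    rw [e] at hk
    have h6 : 6 * (k + (6 * (t + 1) * (t + 1) + 4 * (t + 1) + 1)) < 6 * (6 * t + 5 + 3).choose 3 + 6 := by nlinarith
    omega

theorem three_isGreatest (s : ℕ) :
    IsGreatest (sizes 3 s) ((s + 3).choose 3 - coverNum (s + 3) 3 2) := by
  refine ⟨lower (by omega), ?_⟩
  rintro k ⟨n, E, hE, hφ, rfl⟩
  have hk := three_upper E hE hφ
  have hcov : ∃ m, coverNum (s + 3) 3 2 ≤ m ∧ E.card + m ≤ (s + 3).choose 3 := by
    have h6 : ∃ t, s = 6 * t ∨ s = 6 * t + 1 ∨ s = 6 * t + 2 ∨ s = 6 * t + 3 ∨ s = 6 * t + 4 ∨ s = 6 * t + 5 :=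
      ⟨s / 6, by omega⟩
    obtain ⟨t, h6⟩ := h6
    rcases h6 with rfl | rfl | rfl | rfl | rfl | rfl
    · exact ⟨_, caseA t, three_arith _ _ _ ⟨t, Or.inl ⟨rfl, rfl⟩⟩ hk⟩
    · exact ⟨_, caseE t, three_arith _ _ _ ⟨t, Or.inr (Or.inl ⟨rfl, rfl⟩)⟩ hk⟩
    · exact ⟨_, caseC t, three_arith _ _ _ ⟨t, Or.inr (Or.inr (Or.inl ⟨rfl, rfl⟩))⟩ hk⟩
    · exact ⟨_, caseD t, three_arith _ _ _ ⟨t, Or.inr (Or.inr (Or.inr (Or.inl ⟨rfl, rfl⟩)))⟩ hk⟩
    · exact ⟨_, caseB (t + 1) (by omega), three_arith _ _ _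
        ⟨t, Or.inr (Or.inr (Or.inr (Or.inr (Or.inl ⟨rfl, rfl⟩))))⟩ hk⟩
    · exact ⟨_, caseG (t + 1) (by omega), three_arith _ _ _
        ⟨t, Or.inr (Or.inr (Or.inr (Or.inr (Or.inr ⟨rfl, rfl⟩))))⟩ hk⟩
  obtain ⟨m, h1, h2⟩ := hcov
  omega

end Pool.Agent.Lib.MP_9be8d1_co
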